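import Pool.Agent.LawB.Conc2

/-!
# LawB: several disjoint edges and a function of the state of a set
-/

namespace Pool.Agent.LawB

open Finset

variable {V : Type*} [Fintype V] [DecidableEq V]

omit [Fintype V] in
lemma Dep.mono {S T : Finset V} (h : S ⊆ T) {φ : Finset (Finset V) → ℝ} (hφ : Dep S φ) :
    Dep T φ := by
  intro B B' hB
  apply hφ
  intro F hF
  apply hB F
  intro hd
  exact hF (Finset.disjoint_of_subset_right h hd)

omit [Fintype V] in
lemma ins_insert (F : Finset V) (D : Finset (Finset V)) (B : Finset (Finset V)) :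
    ins (insert F D) B = ins {F} B * ins D B := by
  unfold ins
  simp only [Finset.insert_subset_iff, Finset.singleton_subset_iff]
  by_cases a : F ∈ B <;> by_cases b : D ⊆ B <;> simp [a, b]

/-- several disjoint edges and a function of the state of a set away from them -/
theorem Law.rpt {C : ℝ} {N : ℕ} {H : Finset (Finset V)} {w : Finset (Finset V) → ℝ}
    (h : Law C N H w) (hC : 1 ≤ C) (hN : 1 ≤ N) (k : ℕ) (hk : 0 < k)
    (hcard : ∀ F ∈ H, F.Nonempty ∧ F.card ≤ k) (S : Finset V) (φ : Finset (Finset V) → ℝ)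
    (hφ : Dep S φ) (hφ1 : ∀ B, 0 ≤ φ B ∧ φ B ≤ 1) (D : Finset (Finset V)) (hDH : D ⊆ H)
    (hpd : ∀ F ∈ D, ∀ G ∈ D, F ≠ G → Disjoint F G) (hS : ∀ F ∈ D, Disjoint F S) :
    |(N : ℝ) ^ D.card * ev w (fun B => ins D B * φ B) - ev w φ|
      ≤ (S.card + 1) * (4 * k ^ 2 * C) ^ (D.card + 1) / N := by
  have hNr : (0 : ℝ) < N := by exact_mod_cast hN
  have hkr : (1 : ℝ) ≤ k := by exact_mod_cast hk
  have hk2 : (1 : ℝ) ≤ (k : ℝ) ^ 2 := one_le_pow₀ hkr
  induction D using Finset.induction_on with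
  | empty =>
    have e : (fun B => ins (∅ : Finset (Finset V)) B * φ B) = φ := by
      funext B; rw [ins_empty, one_mul]
    rw [e]
    simp only [Finset.card_empty, pow_zero, one_mul, sub_self, abs_zero]
    positivity
  | insert F D hF ih =>
    have ih' := ih (fun G hG => hDH (Finset.mem_insert_of_mem hG))
      (fun G hG G' hG' => hpd G (Finset.mem_insert_of_mem hG) G' (Finset.mem_insert_of_mem hG'))
      (fun G hG => hS G (Finset.mem_insert_of_mem hG))
    have hFH : F ∈ H := hDH (Finset.mem_insert_self _ _)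
    set T : Finset V := S ∪ D.biUnion id with hT
    have hFT : Disjoint F T := by
      rw [hT, Finset.disjoint_union_right, Finset.disjoint_biUnion_right]
      refine ⟨hS F (Finset.mem_insert_self _ _), fun G hG => ?_⟩
      exact hpd F (Finset.mem_insert_self _ _) G (Finset.mem_insert_of_mem hG)
        (fun e => hF (e ▸ hG))
    have h1 := h.cov F T hFT {F} D (by simp [(hcard F hFH).1])
      (fun G hG => ⟨fun x hx => Finset.mem_union_right _ (Finset.mem_biUnion.2 ⟨G, hG, hx⟩),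
        (hcard G (hDH (Finset.mem_insert_of_mem hG))).1⟩) (fun _ => 1) φ (fun _ _ _ => rfl)
      (hφ.mono Finset.subset_union_left) (fun _ => ⟨zero_le_one, le_rfl⟩) hφ1
    have e1 : (fun B => (ins {F} B * (fun _ => (1 : ℝ)) B) * (ins D B * φ B))
        = fun B => ins (insert F D) B * φ B := by
      funext B
      rw [ins_insert]
      ring
    have e2 : (fun B => ins {F} B * (fun _ => (1 : ℝ)) B) = ins ({F} : Finset (Finset V)) := by
      funext B; simp
    rw [e1, e2, h.marg F hFH, Finset.card_singleton] at h1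
    -- sizes
    have hTc : (T.card : ℝ) ≤ S.card + k * D.card := by
      have h2 : T.card ≤ S.card + D.card * k := by
        rw [hT]
        refine (Finset.card_union_le _ _).trans (Nat.add_le_add_left ?_ _)
        exact Finset.card_biUnion_le_card_mul _ _ _
          fun G hG => (hcard G (hDH (Finset.mem_insert_of_mem hG))).2
      have h3 : (T.card : ℝ) ≤ ((S.card + D.card * k : ℕ) : ℝ) := by exact_mod_cast h2
      push_cast at h3
      linarith
    have hFc : (F.card : ℝ) ≤ k := by exact_mod_cast (hcard F hFH).2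
    set r := D.card with hr
    have h2r : (r : ℝ) + 1 ≤ 2 ^ r := by
      have : r + 1 ≤ 2 ^ r := Nat.lt_two_pow_self
      exact_mod_cast this
    have hsz : (F.card : ℝ) * T.card ≤ (S.card + 1) * (k ^ 2 * 2 ^ r) := by
      have h2 : (F.card : ℝ) * T.card ≤ k * (S.card + k * r) :=
        mul_le_mul hFc hTc (by positivity) (by positivity)
      have h3 : (k : ℝ) * (S.card + k * r) ≤ (S.card + 1) * (k ^ 2 * (r + 1)) := by
        have a1 : (0 : ℝ) ≤ S.card := by positivity
        have a2 : (0 : ℝ) ≤ r := by positivity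
        have a3 : (k : ℝ) * S.card ≤ k ^ 2 * S.card :=
          mul_le_mul_of_nonneg_right (by nlinarith) a1
        have a4 : 0 ≤ (k : ℝ) ^ 2 * (S.card * r) := by positivity
        nlinarith
      have h4 : ((S.card : ℝ) + 1) * (k ^ 2 * (r + 1)) ≤ (S.card + 1) * (k ^ 2 * 2 ^ r) :=
        mul_le_mul_of_nonneg_left (mul_le_mul_of_nonneg_left h2r (by positivity)) (by positivity)
      linarith
    rw [Finset.card_insert_of_notMem hF]
    set X := ev w (fun B => ins (insert F D) B * φ B) with hX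
    set Y := ev w (fun B => ins D B * φ B) with hY
    have h5 : |(N : ℝ) ^ (r + 1) * X - (N : ℝ) ^ r * Y|
        ≤ (S.card + 1) * (C ^ (r + 2) * (k ^ 2 * 2 ^ r)) / N := by
      have e3 : (N : ℝ) ^ (r + 1) * X - (N : ℝ) ^ r * Y = (N : ℝ) ^ (r + 1) * (X - 1 / N * Y) := by
        rw [pow_succ]; field_simp
      rw [e3, abs_mul, abs_of_nonneg (by positivity : (0 : ℝ) ≤ (N : ℝ) ^ (r + 1))]
      have h6 := mul_le_mul_of_nonneg_left h1 (by positivity : (0 : ℝ) ≤ (N : ℝ) ^ (r + 1))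
      refine h6.trans ?_
      have e4 : (N : ℝ) ^ (r + 1) * ((C / N) ^ (1 + r + 1) * (F.card * T.card))
          = C ^ (r + 2) / N * (F.card * T.card) := by
        rw [show 1 + r + 1 = r + 2 by ring, div_pow, pow_succ (N : ℝ) (r + 1)]
        field_simp
      rw [e4]
      have h7 := mul_le_mul_of_nonneg_left hsz (by positivity : 0 ≤ C ^ (r + 2) / (N : ℝ))
      refine h7.trans (le_of_eq ?_)
      ring
    have h8 : |(N : ℝ) ^ (r + 1) * X - ev w φ|
        ≤ (S.card + 1) * (C ^ (r + 2) * (k ^ 2 * 2 ^ r)) / N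
          + (S.card + 1) * (4 * k ^ 2 * C) ^ (r + 1) / N := by
      have e5 : (N : ℝ) ^ (r + 1) * X - ev w φ
          = ((N : ℝ) ^ (r + 1) * X - (N : ℝ) ^ r * Y) + ((N : ℝ) ^ r * Y - ev w φ) := by ring
      rw [e5]
      exact (abs_add_le _ _).trans (add_le_add h5 ih')
    refine h8.trans ?_
    rw [← add_div, ← mul_add]
    apply div_le_div_of_nonneg_right _ hNr.le
    apply mul_le_mul_of_nonneg_left _ (by positivity)
    have hC0 : 0 ≤ C := by linarith
    have b1 : C ^ (r + 2) * ((k : ℝ) ^ 2 * 2 ^ r) ≤ 1 / 4 * (4 * k ^ 2 * C) ^ (r + 1 + 1) := by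
      have b2 : (4 * (k : ℝ) ^ 2 * C) ^ (r + 1 + 1) = C ^ (r + 2) * (4 * (k : ℝ) ^ 2) ^ (r + 2) := by
        rw [show r + 1 + 1 = r + 2 by ring, ← mul_pow]
        ring_nf
      rw [b2]
      have b3 : 4 * ((k : ℝ) ^ 2 * 2 ^ r) ≤ (4 * (k : ℝ) ^ 2) ^ (r + 2) := by
        have b4 : (2 : ℝ) ^ r ≤ (4 * (k : ℝ) ^ 2) ^ r :=
          pow_le_pow_left₀ (by norm_num) (by linarith) r
        have b5 : 4 * (k : ℝ) ^ 2 ≤ (4 * (k : ℝ) ^ 2) ^ 2 := by nlinarith
        have b6 : (4 * (k : ℝ) ^ 2) ^ (r + 2) = (4 * (k : ℝ) ^ 2) ^ 2 * (4 * (k : ℝ) ^ 2) ^ r := by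
          rw [pow_add]; ring
        rw [b6]
        calc 4 * ((k : ℝ) ^ 2 * 2 ^ r) = (4 * (k : ℝ) ^ 2) * 2 ^ r := by ring
          _ ≤ (4 * (k : ℝ) ^ 2) ^ 2 * (4 * (k : ℝ) ^ 2) ^ r :=
            mul_le_mul b5 b4 (by positivity) (by positivity)
      have b7 := mul_le_mul_of_nonneg_left b3 (by positivity : 0 ≤ C ^ (r + 2))
      linarith
    have b8 : (4 * (k : ℝ) ^ 2 * C) ^ (r + 1) ≤ 1 / 4 * (4 * k ^ 2 * C) ^ (r + 1 + 1) := by
      rw [pow_succ (4 * (k : ℝ) ^ 2 * C) (r + 1)]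
      have b9 : 4 ≤ 4 * (k : ℝ) ^ 2 * C := by nlinarith
      have b10 : 0 ≤ (4 * (k : ℝ) ^ 2 * C) ^ (r + 1) := by positivity
      nlinarith
    have b11 : 0 ≤ (4 * (k : ℝ) ^ 2 * C) ^ (r + 1 + 1) := by positivity
    linarith

/-- two different vertices are free -/
theorem Law.free_two {C : ℝ} {N : ℕ} {H : Finset (Finset V)} {w : Finset (Finset V) → ℝ}
    (h : Law C N H w) {x y : V} (hxy : x ≠ y) :
    |ev w (ali {x, y}) - (1 - ((H.filter (fun F => x ∈ F)).card : ℝ) / N)
      * (1 - ((H.filter (fun F => y ∈ F)).card : ℝ) / N)| ≤ C / N := by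
  have h1 := h.two {x} {y} (Finset.disjoint_singleton.2 hxy) (ali {x}) (ali {y})
    (dep_ali _) (dep_ali _) (ali_mem _) (ali_mem _)
  have e : (fun B => ali {x} B * ali {y} B) = ali {x, y} := by
    funext B; exact (ali_insert x {y} B).symm
  rw [e, h.free x, h.free y] at h1
  simpa using h1

/-- several disjoint edges, and one or two free vertices away from them -/
theorem Law.rpt_free {C : ℝ} {N : ℕ} {H : Finset (Finset V)} {w : Finset (Finset V) → ℝ}
    (h : Law C N H w) (hC : 1 ≤ C) (hN : 1 ≤ N) (k : ℕ) (hk : 0 < k)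
    (hcard : ∀ F ∈ H, F.Nonempty ∧ F.card ≤ k) (S : Finset V) (D : Finset (Finset V))
    (hDH : D ⊆ H) (hpd : ∀ F ∈ D, ∀ G ∈ D, F ≠ G → Disjoint F G)
    (hS : ∀ F ∈ D, Disjoint F S) :
    |(N : ℝ) ^ D.card * ev w (fun B => ins D B * ali S B) - ev w (ali S)|
      ≤ (S.card + 1) * (4 * k ^ 2 * C) ^ (D.card + 1) / N :=
  h.rpt hC hN k hk hcard S (ali S) (dep_ali S) (ali_mem S) D hDH hpd hS

end Pool.Agent.LawB
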