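import Pool.Agent.LawB.Main

/-!
# LawB: the law as a structure, with the pair estimates
-/

namespace Pool.Agent.LawB

open Finset

variable {V : Type*} [Fintype V] [DecidableEq V]

/-- expectation with respect to the weights `w` -/
noncomputable def ev (w : Finset (Finset V) → ℝ) (f : Finset (Finset V) → ℝ) : ℝ :=
  ∑ B, w B * f B

/-- `w` is the law of a random matching of the edges `H` with equal marginals `1/N` and weak
dependence (constant `C`) -/
structure Law (C : ℝ) (N : ℕ) (H : Finset (Finset V)) (w : Finset (Finset V) → ℝ) : Prop where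
  nonneg : ∀ B, 0 ≤ w B
  total : ∑ B, w B = 1
  supp : ∀ B, w B ≠ 0 → B ⊆ H ∧ ∀ F ∈ B, ∀ G ∈ B, F ≠ G → Disjoint F G
  marg : ∀ F ∈ H, ev w (ins {F}) = 1 / N
  cov : ∀ (S T : Finset V) (_ : Disjoint S T) (A D : Finset (Finset V))
    (_ : ∀ F ∈ A, F ⊆ S ∧ F.Nonempty) (_ : ∀ F ∈ D, F ⊆ T ∧ F.Nonempty)
    (φ ψ : Finset (Finset V) → ℝ) (_ : Dep S φ) (_ : Dep T ψ)
    (_ : ∀ B, 0 ≤ φ B ∧ φ B ≤ 1) (_ : ∀ B, 0 ≤ ψ B ∧ ψ B ≤ 1),
    |ev w (fun B => (ins A B * φ B) * (ins D B * ψ B))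
      - ev w (fun B => ins A B * φ B) * ev w (fun B => ins D B * ψ B)|
    ≤ (C / N) ^ (A.card + D.card + 1) * (S.card * T.card)

/-- LAW B -/
theorem exists_law (k : ℕ) (hk : 0 < k) (H : Finset (Finset V)) (N : ℕ) (hN : NB k ≤ N)
    (hcard : ∀ F ∈ H, F.Nonempty ∧ F.card ≤ k)
    (hlin : ∀ F ∈ H, ∀ G ∈ H, F ≠ G → (F ∩ G).card ≤ 1)
    (hdeg : ∀ x, 2 * (H.filter (fun F => x ∈ F)).card ≤ N) :
    ∃ w : Finset (Finset V) → ℝ, Law (CB k) N H w := by
  obtain ⟨w, h1, h2, h3, h4, h5⟩ := lawB k hk V H N hN hcard hlin hdeg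
  exact ⟨w, h1, h2, h3, h4, h5⟩

omit [DecidableEq V] in
lemma ev_add (w f g : Finset (Finset V) → ℝ) :
    ev w (fun B => f B + g B) = ev w f + ev w g := by
  unfold ev
  rw [← Finset.sum_add_distrib]
  exact Finset.sum_congr rfl fun _ _ => by ring

omit [DecidableEq V] in
lemma ev_sub (w f g : Finset (Finset V) → ℝ) :
    ev w (fun B => f B - g B) = ev w f - ev w g := by
  unfold ev
  rw [← Finset.sum_sub_distrib]
  exact Finset.sum_congr rfl fun _ _ => by ring

omit [DecidableEq V] in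
lemma ev_smul (w f : Finset (Finset V) → ℝ) (r : ℝ) :
    ev w (fun B => r * f B) = r * ev w f := by
  unfold ev
  rw [Finset.mul_sum]
  exact Finset.sum_congr rfl fun _ _ => by ring

omit [DecidableEq V] in
lemma ev_sum {ι : Type*} (w : Finset (Finset V) → ℝ) (s : Finset ι)
    (f : ι → Finset (Finset V) → ℝ) :
    ev w (fun B => ∑ i ∈ s, f i B) = ∑ i ∈ s, ev w (f i) := by
  unfold ev
  rw [Finset.sum_comm]
  exact Finset.sum_congr rfl fun _ _ => Finset.mul_sum _ _ _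

lemma Law.ev_mono {C : ℝ} {N : ℕ} {H : Finset (Finset V)} {w : Finset (Finset V) → ℝ}
    (h : Law C N H w) {f g : Finset (Finset V) → ℝ}
    (hfg : ∀ B, B ⊆ H → (∀ F ∈ B, ∀ G ∈ B, F ≠ G → Disjoint F G) → f B ≤ g B) :
    ev w f ≤ ev w g := by
  unfold ev
  apply Finset.sum_le_sum
  intro B _
  by_cases hB : w B = 0
  · rw [hB, zero_mul, zero_mul]
  · exact mul_le_mul_of_nonneg_left (hfg B (h.supp B hB).1 (h.supp B hB).2) (h.nonneg B)

lemma Law.ev_congr {C : ℝ} {N : ℕ} {H : Finset (Finset V)} {w : Finset (Finset V) → ℝ}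
    (h : Law C N H w) {f g : Finset (Finset V) → ℝ}
    (hfg : ∀ B, B ⊆ H → (∀ F ∈ B, ∀ G ∈ B, F ≠ G → Disjoint F G) → f B = g B) :
    ev w f = ev w g :=
  le_antisymm (h.ev_mono fun B h1 h2 => (hfg B h1 h2).le)
    (h.ev_mono fun B h1 h2 => (hfg B h1 h2).ge)

lemma Law.ev_const {C : ℝ} {N : ℕ} {H : Finset (Finset V)} {w : Finset (Finset V) → ℝ}
    (h : Law C N H w) (r : ℝ) : ev w (fun _ => r) = r := by
  unfold ev
  rw [← Finset.sum_mul, h.total, one_mul]

omit [Fintype V] in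
/-- on a matching of `H`, a vertex is free or covered by exactly one member -/
lemma ali_singleton_eq (H : Finset (Finset V)) (x : V) (B : Finset (Finset V)) (hB : B ⊆ H)
    (hm : ∀ F ∈ B, ∀ G ∈ B, F ≠ G → Disjoint F G) :
    ali {x} B = 1 - ∑ F ∈ H.filter (fun F => x ∈ F), ins {F} B := by
  by_cases hx : x ∈ Pool.Agent.LawB.cov B
  · obtain ⟨F, hF, hxF⟩ := Finset.mem_biUnion.1 hx
    have hxF' : x ∈ F := hxF
    have h1 : ali {x} B = 0 := by
      unfold ali
      rw [if_neg (by simpa using hx)]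
    have h2 : ∑ G ∈ H.filter (fun G => x ∈ G), ins {G} B = ins {F} B := by
      apply Finset.sum_eq_single_of_mem F (Finset.mem_filter.2 ⟨hB hF, hxF'⟩)
      intro G hG hGF
      unfold ins
      rw [if_neg]
      intro hGB
      have hGB' : G ∈ B := hGB (Finset.mem_singleton_self G)
      exact Finset.disjoint_left.1 (hm G hGB' F hF hGF) (Finset.mem_filter.1 hG).2 hxF'
    have h3 : ins {F} B = 1 := by
      unfold ins
      rw [if_pos (Finset.singleton_subset_iff.2 hF)]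
    rw [h1, h2, h3]; ring
  · have h1 : ali {x} B = 1 := by
      unfold ali
      rw [if_pos (by simpa using hx)]
    have h2 : ∑ G ∈ H.filter (fun G => x ∈ G), ins {G} B = 0 := by
      apply Finset.sum_eq_zero
      intro G hG
      unfold ins
      rw [if_neg]
      intro hGB
      exact hx (Finset.mem_biUnion.2 ⟨G, hGB (Finset.mem_singleton_self G),
        (Finset.mem_filter.1 hG).2⟩)
    rw [h1, h2]; ring

/-- the chance that a vertex is free -/
theorem Law.free {C : ℝ} {N : ℕ} {H : Finset (Finset V)} {w : Finset (Finset V) → ℝ}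
    (h : Law C N H w) (x : V) :
    ev w (ali {x}) = 1 - ((H.filter (fun F => x ∈ F)).card : ℝ) / N := by
  have e := h.ev_congr (f := ali {x})
    (g := fun B => 1 - ∑ F ∈ H.filter (fun F => x ∈ F), ins {F} B)
    (fun B h1 h2 => ali_singleton_eq H x B h1 h2)
  rw [e, ev_sub w (fun _ => 1), h.ev_const, ev_sum]
  have e2 : ∑ F ∈ H.filter (fun F => x ∈ F), ev w (ins {F})
      = ∑ _F ∈ H.filter (fun F => x ∈ F), (1 / N : ℝ) :=
    Finset.sum_congr rfl fun F hF => h.marg F (Finset.mem_filter.1 hF).1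
  rw [e2, Finset.sum_const, nsmul_eq_mul]
  ring

/-- two disjoint edges -/
theorem Law.pair {C : ℝ} {N : ℕ} {H : Finset (Finset V)} {w : Finset (Finset V) → ℝ}
    (h : Law C N H w) {F G : Finset V} (hF : F ∈ H) (hG : G ∈ H) (hF0 : F.Nonempty)
    (hG0 : G.Nonempty) (hd : Disjoint F G) :
    |ev w (ins {F, G}) - 1 / N ^ 2| ≤ (C / N) ^ 3 * (F.card * G.card) := by
  have h1 := h.cov F G hd {F} {G} (by simp [hF0]) (by simp [hG0]) (fun _ => 1) (fun _ => 1)
    (fun _ _ _ => rfl) (fun _ _ _ => rfl) (fun _ => ⟨zero_le_one, le_rfl⟩)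
    (fun _ => ⟨zero_le_one, le_rfl⟩)
  have e : (fun B => (ins {F} B * (fun _ => (1 : ℝ)) B) * (ins {G} B * (fun _ => (1 : ℝ)) B))
      = ins {F, G} := by
    funext B
    unfold ins
    simp only [Finset.insert_subset_iff, Finset.singleton_subset_iff, mul_one]
    by_cases a : F ∈ B <;> by_cases b : G ∈ B <;> simp [a, b]
  have e1 : (fun B => ins {F} B * (fun _ => (1 : ℝ)) B) = ins ({F} : Finset (Finset V)) := by
    funext B; simp
  have e2 : (fun B => ins {G} B * (fun _ => (1 : ℝ)) B) = ins ({G} : Finset (Finset V)) := by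
    funext B; simp
  rw [e, e1, e2, h.marg F hF, h.marg G hG] at h1
  simp only [Finset.card_singleton] at h1
  have e3 : (1 / N : ℝ) * (1 / N) = 1 / N ^ 2 := by ring
  rwa [e3] at h1

/-- a function of the state of `S` and a set of edges away from `S` -/
theorem Law.fn_edges {C : ℝ} {N : ℕ} {H : Finset (Finset V)} {w : Finset (Finset V) → ℝ}
    (h : Law C N H w) (S : Finset V) (φ : Finset (Finset V) → ℝ) (hφ : Dep S φ)
    (hφ1 : ∀ B, 0 ≤ φ B ∧ φ B ≤ 1) (D : Finset (Finset V)) (T : Finset V)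
    (hD : ∀ F ∈ D, F ⊆ T ∧ F.Nonempty) (hST : Disjoint S T) :
    |ev w (fun B => φ B * ins D B) - ev w φ * ev w (ins D)|
      ≤ (C / N) ^ (D.card + 1) * (S.card * T.card) := by
  have h1 := h.cov S T hST ∅ D (by simp) hD φ (fun _ => 1) hφ
    (fun _ _ _ => rfl) hφ1 (fun _ => ⟨zero_le_one, le_rfl⟩)
  simpa [ins_empty] using h1

/-- two functions of the states of disjoint sets -/
theorem Law.two {C : ℝ} {N : ℕ} {H : Finset (Finset V)} {w : Finset (Finset V) → ℝ}
    (h : Law C N H w) (S T : Finset V) (hST : Disjoint S T) (φ ψ : Finset (Finset V) → ℝ)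
    (hφ : Dep S φ) (hψ : Dep T ψ) (hφ1 : ∀ B, 0 ≤ φ B ∧ φ B ≤ 1)
    (hψ1 : ∀ B, 0 ≤ ψ B ∧ ψ B ≤ 1) :
    |ev w (fun B => φ B * ψ B) - ev w φ * ev w ψ| ≤ C / N * (S.card * T.card) := by
  have h1 := h.cov S T hST ∅ ∅ (by simp) (by simp) φ ψ hφ hψ hφ1 hψ1
  simpa [ins_empty] using h1

end Pool.Agent.LawB
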