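import Pool.Agent.LawB.Main

/-!
# LawB: exponential concentration
-/

namespace Pool.Agent.LawB

open Finset

variable {V : Type*} [DecidableEq V]

/-- the attempts in chronological order -/
noncomputable def run :
    List (Finset V × ℝ) → (Finset (Finset V) → ℝ) → Finset (Finset V) → ℝ
  | [], g => g
  | b :: c, g => step b.1 b.2 (run c g)

lemma run_append (c d : List (Finset V × ℝ)) (g : Finset (Finset V) → ℝ) :
    run (c ++ d) g = run c (run d g) := by
  induction c with
  | nil => rfl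
  | cons b c ih =>
    rw [List.cons_append]
    conv_lhs => unfold run
    conv_rhs => unfold run
    rw [ih]

lemma Ex_eq_run (l : List (Finset V × ℝ)) (g : Finset (Finset V) → ℝ) :
    Ex l g = run l.reverse g ∅ := by
  induction l generalizing g with
  | nil => rfl
  | cons a l ih =>
    rw [Ex_cons, ih, List.reverse_cons, run_append]
    rfl

/-- expected future reward when `C` is covered -/
noncomputable def Wf (a : Finset V → ℝ) : List (Finset V × ℝ) → Finset V → ℝ
  | [], _ => 0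
  | b :: c, C =>
      if Disjoint b.1 C then b.2 * (a b.1 + Wf a c (C ∪ b.1)) + (1 - b.2) * Wf a c C
      else Wf a c C

/-- bound for the influence of covering `x` -/
noncomputable def Lp (a : Finset V → ℝ) : List (Finset V × ℝ) → V → ℝ
  | [], _ => 0
  | b :: c, x => Lp a c x + if x ∈ b.1 then b.2 * (a b.1 + ∑ y ∈ b.1.erase x, Lp a c y) else 0

/-- the reward -/
noncomputable def Rw (a : Finset V → ℝ) (B : Finset (Finset V)) : ℝ := ∑ F ∈ B, a F

omit [DecidableEq V] in
lemma good_tail {b : Finset V × ℝ} {c : List (Finset V × ℝ)} (h : Good (b :: c)) : Good c :=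
  fun x hx => h x (List.mem_cons_of_mem _ hx)

lemma Rw_insert (a : Finset V → ℝ) {F : Finset V} (hF : F.Nonempty) {B : Finset (Finset V)}
    (h : Disjoint F (cov B)) : Rw a (insert F B) = a F + Rw a B := by
  unfold Rw
  rw [Finset.sum_insert]
  intro hFB
  obtain ⟨x, hx⟩ := hF
  exact Finset.disjoint_left.1 h hx (Finset.mem_biUnion.2 ⟨F, hFB, hx⟩)

lemma run_Rw (a : Finset V → ℝ) (c : List (Finset V × ℝ)) (hc : ∀ b ∈ c, b.1.Nonempty) :
    ∀ B, run c (Rw a) B = Rw a B + Wf a c (cov B) := by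
  induction c with
  | nil => intro B; simp [run, Wf]
  | cons b c ih =>
    intro B
    have ih' := ih (fun x hx => hc x (List.mem_cons_of_mem _ hx))
    conv_lhs => unfold run
    conv_rhs => unfold Wf
    unfold step
    by_cases h : Disjoint b.1 (cov B)
    · rw [if_pos h, if_pos h, ih', ih', Rw_insert a (hc b List.mem_cons_self) h, cov_insert,
        Finset.union_comm b.1]
      ring
    · rw [if_neg h, if_neg h, ih']

lemma Lp_nonneg (a : Finset V → ℝ) (ha : ∀ F, 0 ≤ a F) (c : List (Finset V × ℝ)) (hc : Good c) :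
    ∀ x, 0 ≤ Lp a c x := by
  induction c with
  | nil => intro x; exact le_rfl
  | cons b c ih =>
    intro x
    have ih' := ih (good_tail hc)
    have hb := (hc b List.mem_cons_self).1
    unfold Lp
    split_ifs
    · have h1 : 0 ≤ ∑ y ∈ b.1.erase x, Lp a c y := Finset.sum_nonneg fun y _ => ih' y
      have h2 := mul_nonneg hb (add_nonneg (ha b.1) h1)
      linarith [ih' x]
    · linarith [ih' x]

lemma Lp_le_cons (a : Finset V → ℝ) (ha : ∀ F, 0 ≤ a F) (b : Finset V × ℝ)
    (c : List (Finset V × ℝ)) (hc : Good (b :: c)) (x : V) : Lp a c x ≤ Lp a (b :: c) x := by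
  have hb := (hc b List.mem_cons_self).1
  conv_rhs => unfold Lp
  split_ifs
  · have h1 : 0 ≤ ∑ y ∈ b.1.erase x, Lp a c y :=
      Finset.sum_nonneg fun y _ => Lp_nonneg a ha c (good_tail hc) y
    have h2 := mul_nonneg hb (add_nonneg (ha b.1) h1)
    linarith
  · linarith

lemma lip_set (a : Finset V → ℝ) (c : List (Finset V × ℝ))
    (h : ∀ C x, |Wf a c (insert x C) - Wf a c C| ≤ Lp a c x) (F : Finset V) :
    ∀ C, |Wf a c (C ∪ F) - Wf a c C| ≤ ∑ y ∈ F, Lp a c y := by
  induction F using Finset.induction_on with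
  | empty => intro C; simp
  | insert x F hx ih =>
    intro C
    rw [Finset.sum_insert hx]
    have e : C ∪ insert x F = insert x (C ∪ F) := by
      ext z; simp
    rw [e]
    have h1 := h (C ∪ F) x
    have h2 := ih C
    have h3 : Wf a c (insert x (C ∪ F)) - Wf a c C
        = (Wf a c (insert x (C ∪ F)) - Wf a c (C ∪ F)) + (Wf a c (C ∪ F) - Wf a c C) := by ring
    rw [h3]
    exact (abs_add_le _ _).trans (add_le_add h1 h2)

lemma lip (a : Finset V → ℝ) (ha : ∀ F, 0 ≤ a F) (c : List (Finset V × ℝ)) (hc : Good c) :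
    ∀ C x, |Wf a c (insert x C) - Wf a c C| ≤ Lp a c x := by
  induction c with
  | nil => intro C x; simp [Wf, Lp]
  | cons b c ih =>
    intro C x
    have ih' := ih (good_tail hc)
    obtain ⟨hb0, hb1⟩ := hc b List.mem_cons_self
    have hL := Lp_nonneg a ha c (good_tail hc)
    conv_rhs => unfold Lp
    have e1 : Wf a (b :: c) (insert x C) = if Disjoint b.1 (insert x C) then
        b.2 * (a b.1 + Wf a c (insert x C ∪ b.1)) + (1 - b.2) * Wf a c (insert x C)
        else Wf a c (insert x C) := rfl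
    have e2 : Wf a (b :: c) C = if Disjoint b.1 C then
        b.2 * (a b.1 + Wf a c (C ∪ b.1)) + (1 - b.2) * Wf a c C else Wf a c C := rfl
    rw [e1, e2]
    by_cases hx : x ∈ b.1
    · have hn : ¬ Disjoint b.1 (insert x C) := by
        rw [Finset.not_disjoint_iff]
        exact ⟨x, hx, Finset.mem_insert_self _ _⟩
      rw [if_neg hn, if_pos hx]
      have hS : 0 ≤ ∑ y ∈ b.1.erase x, Lp a c y := Finset.sum_nonneg fun y _ => hL y
      by_cases hd : Disjoint b.1 C
      · rw [if_pos hd]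
        have h1 := ih' C x
        have h2 := lip_set a c ih' (b.1.erase x) (insert x C)
        have e3 : insert x C ∪ b.1.erase x = C ∪ b.1 := by
          ext z
          simp only [Finset.mem_union, Finset.mem_insert, Finset.mem_erase]
          by_cases hz : z = x
          · subst hz; simp [hx]
          · simp [hz]
        rw [e3] at h2
        have e4 : Wf a c (insert x C) - (b.2 * (a b.1 + Wf a c (C ∪ b.1))
            + (1 - b.2) * Wf a c C) = (1 - b.2) * (Wf a c (insert x C) - Wf a c C)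
              - b.2 * (a b.1 + (Wf a c (C ∪ b.1) - Wf a c (insert x C))) := by ring
        rw [e4]
        have h3 : |a b.1 + (Wf a c (C ∪ b.1) - Wf a c (insert x C))|
            ≤ a b.1 + ∑ y ∈ b.1.erase x, Lp a c y := by
          refine (abs_add_le _ _).trans ?_
          rw [abs_of_nonneg (ha b.1)]
          linarith
        have h4 : |(1 - b.2) * (Wf a c (insert x C) - Wf a c C)| ≤ Lp a c x := by
          rw [abs_mul, abs_of_nonneg (sub_nonneg.2 hb1)]
          have := mul_le_mul (by linarith : 1 - b.2 ≤ 1) h1 (abs_nonneg _) zero_le_one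
          linarith
        have h5 : |b.2 * (a b.1 + (Wf a c (C ∪ b.1) - Wf a c (insert x C)))|
            ≤ b.2 * (a b.1 + ∑ y ∈ b.1.erase x, Lp a c y) := by
          rw [abs_mul, abs_of_nonneg hb0]
          exact mul_le_mul_of_nonneg_left h3 hb0
        have h6 := abs_sub (((1 - b.2) * (Wf a c (insert x C) - Wf a c C)))
          (b.2 * (a b.1 + (Wf a c (C ∪ b.1) - Wf a c (insert x C))))
        linarith
      · rw [if_neg hd]
        have h1 := ih' C x
        have h2 := mul_nonneg hb0 (add_nonneg (ha b.1) hS)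
        linarith
    · have hiff : Disjoint b.1 (insert x C) ↔ Disjoint b.1 C := by
        rw [Finset.disjoint_insert_right]
        exact ⟨fun h => h.2, fun h => ⟨hx, h⟩⟩
      rw [if_neg hx, add_zero]
      by_cases hd : Disjoint b.1 C
      · rw [if_pos (hiff.2 hd), if_pos hd]
        have h1 := ih' C x
        have h2 := ih' (C ∪ b.1) x
        rw [← Finset.insert_union] at h2
        have e4 : b.2 * (a b.1 + Wf a c (insert x C ∪ b.1)) + (1 - b.2) * Wf a c (insert x C)
            - (b.2 * (a b.1 + Wf a c (C ∪ b.1)) + (1 - b.2) * Wf a c C)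
            = b.2 * (Wf a c (insert x C ∪ b.1) - Wf a c (C ∪ b.1))
              + (1 - b.2) * (Wf a c (insert x C) - Wf a c C) := by ring
        rw [e4]
        refine (abs_add_le _ _).trans ?_
        rw [abs_mul, abs_mul, abs_of_nonneg hb0, abs_of_nonneg (sub_nonneg.2 hb1)]
        have h3 := mul_le_mul_of_nonneg_left h1 (sub_nonneg.2 hb1)
        have h4 := mul_le_mul_of_nonneg_left h2 hb0
        linarith
      · rw [if_neg (fun h => hd (hiff.1 h)), if_neg hd]
        exact ih' C x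

/-- the size of a jump -/
noncomputable def Dj (a : Finset V → ℝ) (c : List (Finset V × ℝ)) (F : Finset V) : ℝ :=
  a F + ∑ y ∈ F, Lp a c y

/-- quadratic variation -/
noncomputable def Kf (a : Finset V → ℝ) : List (Finset V × ℝ) → ℝ
  | [] => 0
  | b :: c => Kf a c + b.2 * Dj a c b.1 ^ 2

/-- the sum of the jumps -/
noncomputable def Sf (a : Finset V → ℝ) : List (Finset V × ℝ) → ℝ
  | [] => 0
  | b :: c => Sf a c + b.2 * Dj a c b.1

lemma Dj_nonneg (a : Finset V → ℝ) (ha : ∀ F, 0 ≤ a F) (c : List (Finset V × ℝ)) (hc : Good c)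
    (F : Finset V) : 0 ≤ Dj a c F :=
  add_nonneg (ha F) (Finset.sum_nonneg fun y _ => Lp_nonneg a ha c hc y)

lemma one_step_real (q t : ℝ) (hq : 0 ≤ q) (ht : |t| ≤ 1) :
    q * Real.exp t + (1 - q) ≤ Real.exp (q * t + q * t ^ 2) := by
  have h1 : Real.exp t - 1 ≤ t + t ^ 2 := by
    have := Real.abs_exp_sub_one_sub_id_le ht
    have := (abs_le.1 this).2
    linarith
  have h2 := mul_le_mul_of_nonneg_left h1 hq
  have h3 := Real.add_one_le_exp (q * t + q * t ^ 2)
  nlinarith

theorem exp_run (a : Finset V → ℝ) (ha : ∀ F, 0 ≤ a F) (s D : ℝ) (hs : |s| * D ≤ 1)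
    (c : List (Finset V × ℝ)) (hc : Good c) (hne : ∀ b ∈ c, b.1.Nonempty)
    (hD : ∀ (u v : List (Finset V × ℝ)) (b : Finset V × ℝ), c = u ++ b :: v → Dj a v b.1 ≤ D) :
    ∀ B, run c (fun B => Real.exp (s * Rw a B)) B
      ≤ Real.exp (s * (Rw a B + Wf a c (cov B)) + s ^ 2 * Kf a c) := by
  induction c with
  | nil =>
    intro B
    simp [run, Wf, Kf]
  | cons b c ih =>
    intro B
    obtain ⟨hb0, hb1⟩ := hc b List.mem_cons_self
    have ih' := ih (good_tail hc) (fun x hx => hne x (List.mem_cons_of_mem _ hx))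
      (fun u v d h => hD (b :: u) v d (by rw [h]; rfl))
    have hDb := hD [] c b rfl
    have hD0 := Dj_nonneg a ha c (good_tail hc) b.1
    conv_lhs => unfold run
    have hm := step_mono b.1 b.2 ⟨hb0, hb1⟩ _ _ ih' B
    refine hm.trans ?_
    unfold step
    by_cases h : Disjoint b.1 (cov B)
    · rw [if_pos h]
      beta_reduce
      have eW : Wf a (b :: c) (cov B) = b.2 * (a b.1 + Wf a c (cov B ∪ b.1))
          + (1 - b.2) * Wf a c (cov B) := by
        conv_lhs => unfold Wf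
        rw [if_pos h]
      have eK : Kf a (b :: c) = Kf a c + b.2 * Dj a c b.1 ^ 2 := rfl
      rw [eW, eK, Rw_insert a (hne b List.mem_cons_self) h, cov_insert, Finset.union_comm b.1]
      set t := s * (a b.1 + Wf a c (cov B ∪ b.1) - Wf a c (cov B)) with ht
      have hΔ : |a b.1 + Wf a c (cov B ∪ b.1) - Wf a c (cov B)| ≤ Dj a c b.1 := by
        have h1 := lip_set a c (lip a ha c (good_tail hc)) b.1 (cov B)
        have e : a b.1 + Wf a c (cov B ∪ b.1) - Wf a c (cov B)
            = a b.1 + (Wf a c (cov B ∪ b.1) - Wf a c (cov B)) := by ring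
        rw [e]
        refine (abs_add_le _ _).trans ?_
        rw [abs_of_nonneg (ha b.1)]
        unfold Dj
        linarith
      have ht1 : |t| ≤ |s| * Dj a c b.1 := by
        rw [ht, abs_mul]
        exact mul_le_mul_of_nonneg_left hΔ (abs_nonneg s)
      have ht2 : |t| ≤ 1 := by
        have := mul_le_mul_of_nonneg_left hDb (abs_nonneg s)
        linarith
      have ht3 : t ^ 2 ≤ s ^ 2 * Dj a c b.1 ^ 2 := by
        have h1 : |t| ^ 2 ≤ (|s| * Dj a c b.1) ^ 2 := pow_le_pow_left₀ (abs_nonneg t) ht1 2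
        have h2 : (|s| * Dj a c b.1) ^ 2 = s ^ 2 * Dj a c b.1 ^ 2 := by
          rw [mul_pow, sq_abs]
        rw [h2] at h1
        rw [← sq_abs t]
        exact h1
      have key := one_step_real b.2 t hb0 ht2
      have e1 : Real.exp (s * (a b.1 + Rw a B + Wf a c (cov B ∪ b.1)) + s ^ 2 * Kf a c)
          = Real.exp (s * (Rw a B + Wf a c (cov B)) + s ^ 2 * Kf a c) * Real.exp t := by
        rw [← Real.exp_add]
        congr 1
        rw [ht]; ring
      rw [e1]
      have e2 : b.2 * (Real.exp (s * (Rw a B + Wf a c (cov B)) + s ^ 2 * Kf a c) * Real.exp t)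
          + (1 - b.2) * Real.exp (s * (Rw a B + Wf a c (cov B)) + s ^ 2 * Kf a c)
          = Real.exp (s * (Rw a B + Wf a c (cov B)) + s ^ 2 * Kf a c)
            * (b.2 * Real.exp t + (1 - b.2)) := by ring
      rw [e2]
      have e3 : Real.exp (s * (Rw a B + (b.2 * (a b.1 + Wf a c (cov B ∪ b.1))
            + (1 - b.2) * Wf a c (cov B))) + s ^ 2 * (Kf a c + b.2 * Dj a c b.1 ^ 2))
          = Real.exp (s * (Rw a B + Wf a c (cov B)) + s ^ 2 * Kf a c)
            * Real.exp (b.2 * t + b.2 * (s ^ 2 * Dj a c b.1 ^ 2)) := by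
        rw [← Real.exp_add]
        congr 1
        rw [ht]; ring
      rw [e3]
      apply mul_le_mul_of_nonneg_left _ (Real.exp_pos _).le
      refine key.trans ?_
      apply Real.exp_le_exp.2
      have := mul_le_mul_of_nonneg_left ht3 hb0
      linarith
    · rw [if_neg h]
      beta_reduce
      have eW : Wf a (b :: c) (cov B) = Wf a c (cov B) := by
        conv_lhs => unfold Wf
        rw [if_neg h]
      have eK : Kf a (b :: c) = Kf a c + b.2 * Dj a c b.1 ^ 2 := rfl
      rw [eW, eK]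
      apply Real.exp_le_exp.2
      have h1 : 0 ≤ s ^ 2 * (b.2 * Dj a c b.1 ^ 2) := by positivity
      linarith

/-! ### bounds over the rounds -/

/-- influence bound inside one round -/
theorem Lp_round (k N : ℕ) (qb A a₀ : ℝ) (hqb : 0 ≤ qb) (hqb1 : qb ≤ 1) (hA : 0 ≤ A)
    (hk : 0 < k) (ha₀ : 0 ≤ a₀) (hN : (N : ℝ) * (qb * k) ≤ 1 / 4)
    (a : Finset V → ℝ) (ha : ∀ F, 0 ≤ a F) (haa : ∀ F, a F ≤ a₀)
    (c₀ : List (Finset V × ℝ)) (hc₀ : Good c₀) (h₀ : ∀ x, Lp a c₀ x ≤ A)
    (u : List (Finset V × ℝ)) (hu : ∀ b ∈ u, 0 ≤ b.2 ∧ b.2 ≤ qb) (hcard : ∀ b ∈ u, b.1.card ≤ k)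
    (hdeg : ∀ x, 2 * cnt x u ≤ N) :
    ∀ x, Lp a (u ++ c₀) x ≤ A + (cnt x u : ℝ) * (qb * (a₀ + k * (2 * A + a₀))) := by
  induction u with
  | nil =>
    intro x
    have := h₀ x
    simpa [cnt] using this
  | cons b u ih =>
    have hu' : ∀ x ∈ u, 0 ≤ x.2 ∧ x.2 ≤ qb := fun x hx => hu x (List.mem_cons_of_mem _ hx)
    have hcard' : ∀ x ∈ u, x.1.card ≤ k := fun x hx => hcard x (List.mem_cons_of_mem _ hx)
    have hdeg' : ∀ x, 2 * cnt x u ≤ N := by
      intro x
      have h1 := hdeg x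
      rw [cnt_cons] at h1
      omega
    have ih' := ih hu' hcard' hdeg'
    obtain ⟨hb0, hb1⟩ := hu b List.mem_cons_self
    have hgood : Good (u ++ c₀) := by
      intro x hx
      rcases List.mem_append.1 hx with h | h
      · exact ⟨(hu' x h).1, (hu' x h).2.trans hqb1⟩
      · exact hc₀ x h
    have hkr : (1 : ℝ) ≤ k := by exact_mod_cast hk
    set B := 2 * A + a₀ with hB
    have hB0 : 0 ≤ B := by positivity
    have hall : ∀ x, Lp a (u ++ c₀) x ≤ B := by
      intro x
      refine (ih' x).trans ?_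
      have c1 : 2 * (cnt x u : ℝ) ≤ N := by exact_mod_cast hdeg' x
      have c2 : (cnt x u : ℝ) * (qb * (a₀ + k * B)) ≤ 1 / 8 * (a₀ + B) := by
        have e1 : qb * (a₀ + k * B) ≤ qb * k * (a₀ + B) := by
          have : a₀ ≤ k * a₀ := by nlinarith
          have h2 := mul_le_mul_of_nonneg_left this hqb
          nlinarith
        have e2 : (cnt x u : ℝ) * (qb * (a₀ + k * B)) ≤ (cnt x u : ℝ) * (qb * k * (a₀ + B)) :=
          mul_le_mul_of_nonneg_left e1 (by positivity)
        have e3 : (cnt x u : ℝ) * (qb * k * (a₀ + B)) ≤ (N / 2 : ℝ) * (qb * k * (a₀ + B)) :=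
          mul_le_mul_of_nonneg_right (by linarith) (by positivity)
        have e4 : (N / 2 : ℝ) * (qb * k * (a₀ + B)) = 1 / 2 * (N * (qb * k)) * (a₀ + B) := by
          ring
        have e5 : 1 / 2 * (N * (qb * k)) * (a₀ + B) ≤ 1 / 8 * (a₀ + B) :=
          mul_le_mul_of_nonneg_right (by linarith) (by positivity)
        linarith
      linarith
    intro x
    have hx' := ih' x
    have hpos : 0 ≤ qb * (a₀ + k * B) := by positivity
    rw [List.cons_append]
    conv_lhs => unfold Lp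
    rw [cnt_cons]
    by_cases hx : x ∈ b.1
    · rw [if_pos hx, if_pos hx]
      have h1 : ∑ y ∈ b.1.erase x, Lp a (u ++ c₀) y ≤ k * B := by
        have h2 : ∑ y ∈ b.1.erase x, Lp a (u ++ c₀) y ≤ ∑ _y ∈ b.1.erase x, B :=
          Finset.sum_le_sum fun y _ => hall y
        rw [Finset.sum_const, nsmul_eq_mul] at h2
        have h3 : ((b.1.erase x).card : ℝ) ≤ k := by
          have := (Finset.card_erase_le (s := b.1) (a := x)).trans (hcard b List.mem_cons_self)
          exact_mod_cast this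
        exact h2.trans (mul_le_mul_of_nonneg_right h3 hB0)
      have h0 : 0 ≤ ∑ y ∈ b.1.erase x, Lp a (u ++ c₀) y :=
        Finset.sum_nonneg fun y _ => Lp_nonneg a ha _ hgood y
      have h4 : b.2 * (a b.1 + ∑ y ∈ b.1.erase x, Lp a (u ++ c₀) y) ≤ qb * (a₀ + k * B) :=
        mul_le_mul hb1 (add_le_add (haa b.1) h1) (add_nonneg (ha b.1) h0) hqb
      push_cast
      nlinarith
    · rw [if_neg hx, if_neg hx]
      push_cast
      linarith

theorem Lp_round' (k N : ℕ) (qb A a₀ : ℝ) (hqb : 0 ≤ qb) (hqb1 : qb ≤ 1) (hA : 0 ≤ A)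
    (hk : 0 < k) (ha₀ : 0 ≤ a₀) (hN : (N : ℝ) * (qb * k) ≤ 1 / 4)
    (a : Finset V → ℝ) (ha : ∀ F, 0 ≤ a F) (haa : ∀ F, a F ≤ a₀)
    (c₀ : List (Finset V × ℝ)) (hc₀ : Good c₀) (h₀ : ∀ x, Lp a c₀ x ≤ A)
    (u : List (Finset V × ℝ)) (hu : ∀ b ∈ u, 0 ≤ b.2 ∧ b.2 ≤ qb) (hcard : ∀ b ∈ u, b.1.card ≤ k)
    (hdeg : ∀ x, 2 * cnt x u ≤ N) :
    ∀ x, Lp a (u ++ c₀) x ≤ 3 / 2 * A + 1 / 2 * a₀ := by
  intro x
  refine (Lp_round k N qb A a₀ hqb hqb1 hA hk ha₀ hN a ha haa c₀ hc₀ h₀ u hu hcard hdeg x).trans ?_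
  have hkr : (1 : ℝ) ≤ k := by exact_mod_cast hk
  have c1 : 2 * (cnt x u : ℝ) ≤ N := by exact_mod_cast hdeg x
  have hB0 : 0 ≤ 2 * A + a₀ := by positivity
  have e1 : qb * (a₀ + k * (2 * A + a₀)) ≤ qb * k * (a₀ + (2 * A + a₀)) := by
    have : a₀ ≤ k * a₀ := by nlinarith
    have h2 := mul_le_mul_of_nonneg_left this hqb
    nlinarith
  have e2 : (cnt x u : ℝ) * (qb * (a₀ + k * (2 * A + a₀)))
      ≤ (cnt x u : ℝ) * (qb * k * (a₀ + (2 * A + a₀))) :=
    mul_le_mul_of_nonneg_left e1 (by positivity)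
  have e3 : (cnt x u : ℝ) * (qb * k * (a₀ + (2 * A + a₀)))
      ≤ (N / 2 : ℝ) * (qb * k * (a₀ + (2 * A + a₀))) :=
    mul_le_mul_of_nonneg_right (by linarith) (by positivity)
  have e4 : (N / 2 : ℝ) * (qb * k * (a₀ + (2 * A + a₀)))
      = 1 / 2 * (N * (qb * k)) * (a₀ + (2 * A + a₀)) := by ring
  have e5 : 1 / 2 * (N * (qb * k)) * (a₀ + (2 * A + a₀)) ≤ 1 / 8 * (a₀ + (2 * A + a₀)) :=
    mul_le_mul_of_nonneg_right (by linarith) (by positivity)
  linarith

/-- sum of the chances of the attempts at `x` -/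
noncomputable def pq : List (Finset V × ℝ) → V → ℝ
  | [], _ => 0
  | b :: c, x => pq c x + if x ∈ b.1 then b.2 else 0

/-- sum of the weights of the attempts -/
noncomputable def PA (a : Finset V → ℝ) : List (Finset V × ℝ) → ℝ
  | [] => 0
  | b :: c => PA a c + b.2 * a b.1

lemma pq_nonneg (c : List (Finset V × ℝ)) (hc : Good c) (x : V) : 0 ≤ pq c x := by
  induction c with
  | nil => exact le_rfl
  | cons b c ih =>
    have h1 := ih (good_tail hc)
    have h2 := (hc b List.mem_cons_self).1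
    unfold pq
    split_ifs <;> linarith

lemma pq_le (c : List (Finset V × ℝ)) (qb : ℝ) (h : ∀ b ∈ c, b.2 ≤ qb) (x : V) :
    pq c x ≤ qb * cnt x c := by
  induction c with
  | nil => simp [pq, cnt]
  | cons b c ih =>
    have h1 := ih (fun b hb => h b (List.mem_cons_of_mem _ hb))
    have h2 := h b List.mem_cons_self
    unfold pq
    rw [cnt_cons]
    split_ifs
    · push_cast; linarith
    · push_cast; linarith

variable [Fintype V]

lemma sum_mem_eq (F : Finset V) (f : V → ℝ) :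
    ∑ x, (if x ∈ F then f x else 0) = ∑ x ∈ F, f x := by
  rw [Finset.sum_ite_mem, Finset.univ_inter]

/-- the sum of the jumps is bounded by the mass of the influences -/
lemma Sf_le (a : Finset V → ℝ) (ha : ∀ F, 0 ≤ a F) (c : List (Finset V × ℝ)) (hc : Good c) :
    Sf a c ≤ PA a c + ∑ x, Lp a c x * pq c x := by
  induction c with
  | nil => simp [Sf, PA, Lp]
  | cons b c ih =>
    have ih' := ih (good_tail hc)
    have hb := (hc b List.mem_cons_self).1
    have e1 : Sf a (b :: c) = Sf a c + b.2 * (a b.1 + ∑ y ∈ b.1, Lp a c y) := rfl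
    have e2 : PA a (b :: c) = PA a c + b.2 * a b.1 := rfl
    rw [e1, e2]
    have e3 : ∑ x, Lp a (b :: c) x * pq (b :: c) x
        ≥ ∑ x, Lp a c x * pq c x + b.2 * ∑ y ∈ b.1, Lp a c y := by
      have e4 : b.2 * ∑ y ∈ b.1, Lp a c y = ∑ x, (if x ∈ b.1 then b.2 * Lp a c x else 0) := by
        rw [sum_mem_eq, Finset.mul_sum]
      rw [e4, ge_iff_le, ← Finset.sum_add_distrib]
      apply Finset.sum_le_sum
      intro x _
      have h1 := Lp_le_cons a ha b c hc x
      have h2 := pq_nonneg c (good_tail hc) x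
      have h3 := Lp_nonneg a ha c (good_tail hc) x
      have e5 : pq (b :: c) x = pq c x + if x ∈ b.1 then b.2 else 0 := rfl
      rw [e5]
      split_ifs
      · have h4 := mul_le_mul_of_nonneg_right h1 (add_nonneg h2 hb)
        nlinarith
      · have h4 := mul_le_mul_of_nonneg_right h1 h2
        nlinarith
    linarith

/-- the mass of the influences over one round -/
lemma mass_round (k : ℕ) (qb : ℝ) (hqb : 0 ≤ qb) (hqb1 : qb ≤ 1)
    (a : Finset V → ℝ) (ha : ∀ F, 0 ≤ a F) (c₀ : List (Finset V × ℝ)) (hc₀ : Good c₀)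
    (u : List (Finset V × ℝ)) (hu : ∀ b ∈ u, 0 ≤ b.2 ∧ b.2 ≤ qb) (hcard : ∀ b ∈ u, b.1.card ≤ k) :
    ∑ x, Lp a (u ++ c₀) x ≤ ∑ x, Lp a c₀ x
      + qb * k * ((u.map (fun b => a b.1)).sum + ∑ x, Lp a (u ++ c₀) x * cnt x u) := by
  induction u with
  | nil => simp [cnt]
  | cons b u ih =>
    have hu' : ∀ x ∈ u, 0 ≤ x.2 ∧ x.2 ≤ qb := fun x hx => hu x (List.mem_cons_of_mem _ hx)
    have hcard' : ∀ x ∈ u, x.1.card ≤ k := fun x hx => hcard x (List.mem_cons_of_mem _ hx)
    have ih' := ih hu' hcard'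
    obtain ⟨hb0, hb1⟩ := hu b List.mem_cons_self
    have hgood : Good (b :: (u ++ c₀)) := by
      intro x hx
      rcases List.mem_cons.1 hx with rfl | hx
      · exact ⟨hb0, hb1.trans hqb1⟩
      rcases List.mem_append.1 hx with h | h
      · exact ⟨(hu' x h).1, (hu' x h).2.trans hqb1⟩
      · exact hc₀ x h
    have hgood' := good_tail hgood
    rw [List.cons_append, List.map_cons, List.sum_cons]
    set c := u ++ c₀ with hc
    have hL := Lp_nonneg a ha c hgood'
    have hsum0 : 0 ≤ ∑ y ∈ b.1, Lp a c y := Finset.sum_nonneg fun y _ => hL y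
    have hkc : (b.1.card : ℝ) ≤ k := by exact_mod_cast hcard b List.mem_cons_self
    have e1 : ∑ x, Lp a (b :: c) x ≤ ∑ x, Lp a c x
        + qb * k * (a b.1 + ∑ y ∈ b.1, Lp a c y) := by
      have e2 : ∀ x, Lp a (b :: c) x ≤ Lp a c x
          + if x ∈ b.1 then b.2 * (a b.1 + ∑ y ∈ b.1, Lp a c y) else 0 := by
        intro x
        conv_lhs => unfold Lp
        split_ifs with hx
        · have h1 : ∑ y ∈ b.1.erase x, Lp a c y ≤ ∑ y ∈ b.1, Lp a c y :=
            Finset.sum_le_sum_of_subset_of_nonneg (Finset.erase_subset _ _) fun y _ _ => hL y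
          have h2 := mul_le_mul_of_nonneg_left (add_le_add_right h1 (a b.1)) hb0
          linarith
        · linarith
      have e3 := Finset.sum_le_sum fun x (_ : x ∈ Finset.univ) => e2 x
      rw [Finset.sum_add_distrib, sum_mem_eq, Finset.sum_const, nsmul_eq_mul] at e3
      have e4 : (b.1.card : ℝ) * (b.2 * (a b.1 + ∑ y ∈ b.1, Lp a c y))
          ≤ k * (qb * (a b.1 + ∑ y ∈ b.1, Lp a c y)) := by
        have h0 : 0 ≤ a b.1 + ∑ y ∈ b.1, Lp a c y := add_nonneg (ha b.1) hsum0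
        exact mul_le_mul hkc (mul_le_mul_of_nonneg_right hb1 h0) (mul_nonneg hb0 h0)
          (by positivity)
      linarith
    have e5 : ∑ x, Lp a c x * cnt x u + ∑ y ∈ b.1, Lp a c y
        ≤ ∑ x, Lp a (b :: c) x * cnt x (b :: u) := by
      rw [← sum_mem_eq b.1 (fun y => Lp a c y), ← Finset.sum_add_distrib]
      apply Finset.sum_le_sum
      intro x _
      have h1 := Lp_le_cons a ha b c hgood x
      rw [cnt_cons]
      split_ifs
      · push_cast
        have h2 : (0 : ℝ) ≤ (cnt x u : ℝ) + 1 := by positivity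
        have h3 := mul_le_mul_of_nonneg_right h1 h2
        linarith
      · push_cast
        have h2 : (0 : ℝ) ≤ (cnt x u : ℝ) + 0 := by positivity
        have h3 := mul_le_mul_of_nonneg_right h1 h2
        linarith
    have hqk : 0 ≤ qb * k := by positivity
    have e6 := mul_le_mul_of_nonneg_left e5 hqk
    nlinarith [ih', e1, e6]

/-! ### all rounds -/

omit [Fintype V] in
lemma Lp_le_append (a : Finset V → ℝ) (ha : ∀ F, 0 ≤ a F) (u c : List (Finset V × ℝ))
    (hc : Good (u ++ c)) (x : V) : Lp a c x ≤ Lp a (u ++ c) x := by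
  induction u with
  | nil => exact le_rfl
  | cons b u ih =>
    exact (ih (good_tail hc)).trans (Lp_le_cons a ha b (u ++ c) hc x)

omit [Fintype V] in
/-- the influences after `r` rounds -/
theorem Lp_rounds (k N : ℕ) (qb a₀ : ℝ) (hqb : 0 ≤ qb) (hqb1 : qb ≤ 1)
    (hk : 0 < k) (ha₀ : 0 ≤ a₀) (hN : (N : ℝ) * (qb * k) ≤ 1 / 4)
    (a : Finset V → ℝ) (ha : ∀ F, 0 ≤ a F) (haa : ∀ F, a F ≤ a₀)
    (L : List (Finset V)) (hL : ∀ F ∈ L, F.card ≤ k)
    (hdeg : ∀ x, 2 * L.countP (fun F => decide (x ∈ F)) ≤ N) :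
    ∀ (r : ℕ) (c : List (Finset V × ℝ)), c.map Prod.fst = (List.replicate r L).flatten →
      (∀ b ∈ c, 0 ≤ b.2 ∧ b.2 ≤ qb) → ∀ x, Lp a c x ≤ a₀ * ((3 / 2) ^ r - 1) := by
  intro r
  induction r with
  | zero =>
    intro c hc _ x
    have : c = [] := by simpa using hc
    subst this
    simp [Lp]
  | succ r ih =>
    intro c hc hb x
    rw [List.replicate_succ, List.flatten_cons, List.map_eq_append_iff] at hc
    obtain ⟨u, c₀, rfl, hu, hc₀⟩ := hc
    have hb₀ : ∀ b ∈ c₀, 0 ≤ b.2 ∧ b.2 ≤ qb := fun b h => hb b (List.mem_append_right _ h)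
    have hbu : ∀ b ∈ u, 0 ≤ b.2 ∧ b.2 ≤ qb := fun b h => hb b (List.mem_append_left _ h)
    have h₀ := ih c₀ hc₀ hb₀
    have hpow : (1 : ℝ) ≤ (3 / 2) ^ r := one_le_pow₀ (by norm_num)
    have hA : 0 ≤ a₀ * ((3 / 2) ^ r - 1) := mul_nonneg ha₀ (sub_nonneg.2 hpow)
    refine (Lp_round' k N qb _ a₀ hqb hqb1 hA hk ha₀ hN a ha haa c₀
      (fun b h => ⟨(hb₀ b h).1, (hb₀ b h).2.trans hqb1⟩) h₀ u hbu ?_ ?_ x).trans ?_
    · intro b hbm
      apply hL
      rw [← hu]
      exact List.mem_map_of_mem hbm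
    · intro z
      rw [cnt_eq, hu]
      exact hdeg z
    · rw [pow_succ]
      apply le_of_eq
      ring

/-- the mass of the influences after `r` rounds -/
theorem mass_rounds (k N : ℕ) (qb S : ℝ) (hqb : 0 ≤ qb) (hqb1 : qb ≤ 1) (hS : 0 ≤ S)
    (hN : (N : ℝ) * (qb * k) ≤ 1 / 4)
    (a : Finset V → ℝ) (ha : ∀ F, 0 ≤ a F)
    (L : List (Finset V)) (hL : ∀ F ∈ L, F.card ≤ k)
    (hdeg : ∀ x, 2 * L.countP (fun F => decide (x ∈ F)) ≤ N)
    (hsum : (L.map a).sum ≤ N * S) :
    ∀ (r : ℕ) (c : List (Finset V × ℝ)), c.map Prod.fst = (List.replicate r L).flatten →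
      (∀ b ∈ c, 0 ≤ b.2 ∧ b.2 ≤ qb) → ∑ x, Lp a c x ≤ S * ((3 / 2) ^ r - 1) := by
  intro r
  induction r with
  | zero =>
    intro c hc _
    have : c = [] := by simpa using hc
    subst this
    simp [Lp]
  | succ r ih =>
    intro c hc hb
    rw [List.replicate_succ, List.flatten_cons, List.map_eq_append_iff] at hc
    obtain ⟨u, c₀, rfl, hu, hc₀⟩ := hc
    have hb₀ : ∀ b ∈ c₀, 0 ≤ b.2 ∧ b.2 ≤ qb := fun b h => hb b (List.mem_append_right _ h)
    have hbu : ∀ b ∈ u, 0 ≤ b.2 ∧ b.2 ≤ qb := fun b h => hb b (List.mem_append_left _ h)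
    have h₀ := ih c₀ hc₀ hb₀
    have hgood : Good (u ++ c₀) := fun b h => ⟨(hb b h).1, (hb b h).2.trans hqb1⟩
    have hgood₀ : Good c₀ := fun b h => ⟨(hb₀ b h).1, (hb₀ b h).2.trans hqb1⟩
    have h1 := mass_round k qb hqb hqb1 a ha c₀ hgood₀ u hbu (by
      intro b hbm
      apply hL
      rw [← hu]
      exact List.mem_map_of_mem hbm)
    have e1 : (u.map (fun b => a b.1)).sum = (L.map a).sum := by
      rw [← hu, List.map_map]
      rfl
    rw [e1] at h1
    have h2 : ∑ x, Lp a (u ++ c₀) x * cnt x u ≤ (N / 2 : ℝ) * ∑ x, Lp a (u ++ c₀) x := by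
      rw [Finset.mul_sum]
      apply Finset.sum_le_sum
      intro x _
      have h3 : 2 * cnt x u ≤ N := by rw [cnt_eq, hu]; exact hdeg x
      have h4 : 2 * (cnt x u : ℝ) ≤ N := by exact_mod_cast h3
      have h5 := Lp_nonneg a ha _ hgood x
      nlinarith
    have hm0 : 0 ≤ ∑ x, Lp a (u ++ c₀) x :=
      Finset.sum_nonneg fun x _ => Lp_nonneg a ha _ hgood x
    have hqk : 0 ≤ qb * k := by positivity
    have h6 : qb * k * ((L.map a).sum + ∑ x, Lp a (u ++ c₀) x * cnt x u)
        ≤ qb * k * (N * S + (N / 2 : ℝ) * ∑ x, Lp a (u ++ c₀) x) :=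
      mul_le_mul_of_nonneg_left (add_le_add hsum h2) hqk
    have h7 : qb * k * (N * S + (N / 2 : ℝ) * ∑ x, Lp a (u ++ c₀) x)
        = (N * (qb * k)) * (S + 1 / 2 * ∑ x, Lp a (u ++ c₀) x) := by ring
    have h8 : (N * (qb * k)) * (S + 1 / 2 * ∑ x, Lp a (u ++ c₀) x)
        ≤ 1 / 4 * (S + 1 / 2 * ∑ x, Lp a (u ++ c₀) x) :=
      mul_le_mul_of_nonneg_right hN (by positivity)
    have hpow : (1 : ℝ) ≤ (3 / 2) ^ r := one_le_pow₀ (by norm_num)
    have hA : 0 ≤ S * ((3 / 2) ^ r - 1) := mul_nonneg hS (sub_nonneg.2 hpow)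
    rw [pow_succ]
    nlinarith

omit [Fintype V] in
lemma PA_le (a : Finset V → ℝ) (ha : ∀ F, 0 ≤ a F) (qb : ℝ) (c : List (Finset V × ℝ))
    (h : ∀ b ∈ c, b.2 ≤ qb) : PA a c ≤ qb * ((c.map Prod.fst).map a).sum := by
  induction c with
  | nil => simp [PA]
  | cons b c ih =>
    have h1 := ih (fun b hb => h b (List.mem_cons_of_mem _ hb))
    have h2 := mul_le_mul_of_nonneg_right (h b List.mem_cons_self) (ha b.1)
    rw [List.map_cons, List.map_cons, List.sum_cons]
    unfold PA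
    linarith

omit [DecidableEq V] [Fintype V] in
lemma sum_flatten_replicate (a : Finset V → ℝ) (L : List (Finset V)) (r : ℕ) :
    (((List.replicate r L).flatten).map a).sum = r * (L.map a).sum := by
  induction r with
  | zero => simp
  | succ r ih =>
    rw [List.replicate_succ, List.flatten_cons, List.map_append, List.sum_append, ih]
    push_cast
    ring

omit [Fintype V] in
lemma Kf_le (a : Finset V → ℝ) (ha : ∀ F, 0 ≤ a F) (D : ℝ) (c : List (Finset V × ℝ))
    (hc : Good c)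
    (hD : ∀ (u v : List (Finset V × ℝ)) (b : Finset V × ℝ), c = u ++ b :: v → Dj a v b.1 ≤ D) :
    Kf a c ≤ D * Sf a c := by
  induction c with
  | nil => simp [Kf, Sf]
  | cons b c ih =>
    have h1 := ih (good_tail hc) (fun u v d h => hD (b :: u) v d (by rw [h]; rfl))
    have h2 := hD [] c b rfl
    have h3 := Dj_nonneg a ha c (good_tail hc) b.1
    have h4 := (hc b List.mem_cons_self).1
    have h5 : b.2 * Dj a c b.1 ^ 2 ≤ D * (b.2 * Dj a c b.1) := by
      have := mul_le_mul_of_nonneg_right h2 (mul_nonneg h4 h3)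
      nlinarith
    have e1 : Kf a (b :: c) = Kf a c + b.2 * Dj a c b.1 ^ 2 := rfl
    have e2 : Sf a (b :: c) = Sf a c + b.2 * Dj a c b.1 := rfl
    rw [e1, e2]
    linarith

/-- the constant of the concentration inequality -/
noncomputable def CC (k : ℕ) : ℝ := k * 2 ^ (k + 1) * (3 / 2) ^ (2 * Tn k)

/-- concentration for the chain -/
theorem conc_chain (k N : ℕ) (hk : 0 < k) (hN1 : 1 ≤ N) (a₀ S s : ℝ) (ha₀ : 0 ≤ a₀)
    (hS : 0 ≤ S) (a : Finset V → ℝ) (ha : ∀ F, 0 ≤ a F) (haa : ∀ F, a F ≤ a₀)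
    (L : List (Finset V)) (hL : ∀ F ∈ L, F.Nonempty ∧ F.card ≤ k)
    (hdeg : ∀ x, 2 * L.countP (fun F => decide (x ∈ F)) ≤ N)
    (hsum : (L.map a).sum ≤ N * S) (hs : |s| * a₀ * CC k ≤ 1)
    (c : List (Finset V × ℝ)) (hcL : c.map Prod.fst = (List.replicate (Tn k) L).flatten)
    (hcq : ∀ b ∈ c, 0 ≤ b.2 ∧ b.2 ≤ 2 ^ (k + 1) * (1 / (N * Tn k : ℝ))) :
    run c (fun B => Real.exp (s * Rw a B)) ∅
      ≤ Real.exp (s * Wf a c ∅ + CC k * s ^ 2 * a₀ * S) := by
  have hNr : (0 : ℝ) < N := by exact_mod_cast hN1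
  have hT0 : 0 < Tn k := by unfold Tn; positivity
  have hTr : (0 : ℝ) < Tn k := by exact_mod_cast hT0
  have hkr : (1 : ℝ) ≤ k := by exact_mod_cast hk
  have hTQ : (Tn k : ℝ) = 4 * k * 2 ^ (k + 1) := by unfold Tn; push_cast; ring
  set Q : ℝ := 2 ^ (k + 1) with hQ
  have hQ1 : 1 ≤ Q := one_le_pow₀ (by norm_num)
  set qb : ℝ := Q * (1 / (N * Tn k : ℝ)) with hqb
  have hqb0 : 0 ≤ qb := by positivity
  have hNq : (N : ℝ) * (qb * k) ≤ 1 / 4 := by
    rw [hqb, hTQ]
    have : (N : ℝ) * (Q * (1 / (N * (4 * k * Q))) * k) = 1 / 4 := by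
      have h1 : (0 : ℝ) < Q := by linarith
      have h2 : (0 : ℝ) < k := by linarith
      field_simp
    rw [this]
  have hqb1 : qb ≤ 1 := by
    have h1 : (1 : ℝ) ≤ N := by exact_mod_cast hN1
    have h3 : qb * k ≤ N * (qb * k) := by nlinarith [mul_nonneg hqb0 (by linarith : (0 : ℝ) ≤ k)]
    nlinarith
  set P : ℝ := (3 / 2) ^ Tn k with hP
  have hP1 : 1 ≤ P := one_le_pow₀ (by norm_num)
  have hgood : Good c := fun b h => ⟨(hcq b h).1, (hcq b h).2.trans hqb1⟩
  have hLp := Lp_rounds k N qb a₀ hqb0 hqb1 hk ha₀ hNq a ha haa L (fun F hF => (hL F hF).2) hdeg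
    (Tn k) c hcL hcq
  have hMass := mass_rounds k N qb S hqb0 hqb1 hS hNq a ha L (fun F hF => (hL F hF).2) hdeg hsum
    (Tn k) c hcL hcq
  have hcmem : ∀ b ∈ c, b.1 ∈ L := by
    intro b hb
    have h1 : b.1 ∈ c.map Prod.fst := List.mem_map_of_mem hb
    rw [hcL, List.mem_flatten] at h1
    obtain ⟨M, hM, haM⟩ := h1
    rw [List.eq_of_mem_replicate hM] at haM
    exact haM
  -- the jumps
  set D : ℝ := a₀ * (k * P) with hD
  have hDj : ∀ (u v : List (Finset V × ℝ)) (b : Finset V × ℝ), c = u ++ b :: v →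
      Dj a v b.1 ≤ D := by
    intro u v b hcv
    have hbL : b.1 ∈ L := hcmem b (by rw [hcv]; simp)
    have hv : ∀ y, Lp a v y ≤ a₀ * (P - 1) := by
      intro y
      have e : c = (u ++ [b]) ++ v := by rw [hcv]; simp
      have h1 := Lp_le_append a ha (u ++ [b]) v (by rw [← e]; exact hgood) y
      rw [← e] at h1
      exact h1.trans (hLp y)
    have h1 : ∑ y ∈ b.1, Lp a v y ≤ k * (a₀ * (P - 1)) := by
      have h2 : ∑ y ∈ b.1, Lp a v y ≤ ∑ _y ∈ b.1, a₀ * (P - 1) :=
        Finset.sum_le_sum fun y _ => hv y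
      rw [Finset.sum_const, nsmul_eq_mul] at h2
      have h3 : (b.1.card : ℝ) ≤ k := by exact_mod_cast (hL _ hbL).2
      exact h2.trans (mul_le_mul_of_nonneg_right h3 (mul_nonneg ha₀ (by linarith)))
    have h4 := haa b.1
    unfold Dj
    have h5 : a₀ ≤ k * a₀ := by nlinarith
    calc a b.1 + ∑ y ∈ b.1, Lp a v y ≤ k * a₀ + k * (a₀ * (P - 1)) := by linarith
      _ = D := by rw [hD]; ring
  have hD0 : 0 ≤ D := by positivity
  -- the sum of the jumps
  have hpq : ∀ x, pq c x ≤ Q / 2 := by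
    intro x
    refine (pq_le c qb (fun b h => (hcq b h).2) x).trans ?_
    rw [cnt_eq, hcL, countP_flatten_replicate]
    have h1 := hdeg x
    have h2 : 2 * (L.countP (fun F => decide (x ∈ F)) : ℝ) ≤ N := by exact_mod_cast h1
    push_cast
    have e1 : qb * (Tn k * (L.countP (fun F => decide (x ∈ F)) : ℝ))
        = Q / N * (L.countP (fun F => decide (x ∈ F)) : ℝ) := by
      rw [hqb]; field_simp
    rw [e1]
    have e2 : Q / N * (L.countP (fun F => decide (x ∈ F)) : ℝ) ≤ Q / N * (N / 2) :=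
      mul_le_mul_of_nonneg_left (by linarith) (by positivity)
    have e3 : Q / N * (N / 2 : ℝ) = Q / 2 := by field_simp
    linarith
  have hPA : PA a c ≤ Q * S := by
    refine (PA_le a ha qb c (fun b h => (hcq b h).2)).trans ?_
    rw [hcL, sum_flatten_replicate]
    have e1 : qb * (Tn k * (L.map a).sum) ≤ qb * (Tn k * (N * S)) :=
      mul_le_mul_of_nonneg_left (mul_le_mul_of_nonneg_left hsum hTr.le) hqb0
    have e2 : qb * (Tn k * (N * S)) = Q * S := by
      rw [hqb]; field_simp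
    linarith
  have hSf : Sf a c ≤ Q * P * S := by
    have h1 := Sf_le a ha c hgood
    have h2 : ∑ x, Lp a c x * pq c x ≤ Q / 2 * ∑ x, Lp a c x := by
      rw [Finset.mul_sum]
      apply Finset.sum_le_sum
      intro x _
      have h3 := mul_le_mul_of_nonneg_left (hpq x) (Lp_nonneg a ha c hgood x)
      linarith
    have h4 : Q / 2 * ∑ x, Lp a c x ≤ Q / 2 * (S * (P - 1)) :=
      mul_le_mul_of_nonneg_left hMass (by positivity)
    have h5 : 0 ≤ Q * (S * (P - 1)) :=
      mul_nonneg (by linarith) (mul_nonneg hS (by linarith))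
    nlinarith
  have hKf : Kf a c ≤ CC k * a₀ * S := by
    refine (Kf_le a ha D c hgood hDj).trans ?_
    refine (mul_le_mul_of_nonneg_left hSf hD0).trans ?_
    apply le_of_eq
    rw [hD]
    unfold CC
    rw [← hQ, mul_comm 2 (Tn k), pow_mul, ← hP]
    ring
  have hDs : |s| * D ≤ 1 := by
    refine le_trans ?_ hs
    have e1 : |s| * a₀ * CC k = |s| * D * (Q * P) := by
      rw [hD]
      unfold CC
      rw [← hQ, mul_comm 2 (Tn k), pow_mul, ← hP]
      ring
    rw [e1]
    have h1 : 1 ≤ Q * P := by nlinarith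
    have h2 : 0 ≤ |s| * D := by positivity
    nlinarith
  have key := exp_run a ha s D hDs c hgood (fun b hb => (hL _ (hcmem b hb)).1) hDj ∅
  refine key.trans ?_
  apply Real.exp_le_exp.2
  have e1 : Rw a (∅ : Finset (Finset V)) = 0 := by unfold Rw; simp
  rw [e1, cov_empty, zero_add]
  have h1 := mul_le_mul_of_nonneg_left hKf (sq_nonneg s)
  linarith

end Pool.Agent.LawB
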