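import Pool.Agent.LawB.Conc
import Pool.Agent.LawB.Cor

/-!
# LawB: the law with exponential concentration
-/

namespace Pool.Agent.LawB

open Finset

variable {V : Type*} [DecidableEq V]

omit [DecidableEq V] in
lemma reverse_flatten_replicate (L : List (Finset V)) (r : ℕ) :
    ((List.replicate r L).flatten).reverse = (List.replicate r L.reverse).flatten := by
  rw [List.reverse_flatten, List.map_replicate, List.reverse_replicate]

/-- LAW B, with the chain that produces the law -/
theorem lawB_run (k : ℕ) (hk : 0 < k) (V : Type*) [Fintype V] [DecidableEq V]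
    (H : Finset (Finset V)) (N : ℕ) (hN : NB k ≤ N)
    (hcard : ∀ F ∈ H, F.Nonempty ∧ F.card ≤ k)
    (hlin : ∀ F ∈ H, ∀ G ∈ H, F ≠ G → (F ∩ G).card ≤ 1)
    (hdeg : ∀ x, 2 * (H.filter (fun F => x ∈ F)).card ≤ N) :
    ∃ w : Finset (Finset V) → ℝ, (∀ B, 0 ≤ w B) ∧ ∑ B, w B = 1 ∧
      (∀ B, w B ≠ 0 → B ⊆ H ∧ ∀ F ∈ B, ∀ G ∈ B, F ≠ G → Disjoint F G) ∧
      (∀ F ∈ H, ∑ B, w B * ins {F} B = 1 / N) ∧
      (∀ (S T : Finset V) (_ : Disjoint S T) (A D : Finset (Finset V))
        (_ : ∀ F ∈ A, F ⊆ S ∧ F.Nonempty) (_ : ∀ F ∈ D, F ⊆ T ∧ F.Nonempty)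
        (φ ψ : Finset (Finset V) → ℝ) (_ : Dep S φ) (_ : Dep T ψ)
        (_ : ∀ B, 0 ≤ φ B ∧ φ B ≤ 1) (_ : ∀ B, 0 ≤ ψ B ∧ ψ B ≤ 1),
        |∑ B, w B * ((ins A B * φ B) * (ins D B * ψ B))
          - (∑ B, w B * (ins A B * φ B)) * (∑ B, w B * (ins D B * ψ B))|
        ≤ (CB k / N) ^ (A.card + D.card + 1) * (S.card * T.card)) ∧
      ∃ c : List (Finset V × ℝ),
        c.map Prod.fst = (List.replicate (Tn k) H.toList.reverse).flatten ∧
        (∀ b ∈ c, 0 ≤ b.2 ∧ b.2 ≤ 2 ^ (k + 1) * (1 / (N * Tn k : ℝ))) ∧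
        ∀ g : Finset (Finset V) → ℝ, ∑ B, w B * g B = run c g ∅ := by
  classical
  set L := H.toList with hL
  have hmem : ∀ F, F ∈ L ↔ F ∈ H := fun F => Finset.mem_toList
  have hnd : L.Nodup := H.nodup_toList
  have hN1 : 1 ≤ N := by unfold NB at hN; omega
  have hNr : (0 : ℝ) < N := by exact_mod_cast hN1
  have hT0 : 0 < Tn k := by unfold Tn; positivity
  have hTr : (0 : ℝ) < Tn k := by exact_mod_cast hT0
  have hlinL : L.Pairwise (fun F G => ∀ x y, x ≠ y → ¬ (x ∈ F ∧ y ∈ F ∧ x ∈ G ∧ y ∈ G)) := by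
    have h1 : L.Pairwise (fun F G => F ≠ G) := hnd
    refine (List.Pairwise.and_mem.1 h1).imp ?_
    rintro F G ⟨hF, hG, hFG⟩ x y hxy ⟨a1, a2, a3, a4⟩
    have h2 := hlin F ((hmem F).1 hF) G ((hmem G).1 hG) hFG
    have h3 : ({x, y} : Finset V) ⊆ F ∩ G := by
      intro z hz
      rcases Finset.mem_insert.1 hz with rfl | hz
      · exact Finset.mem_inter.2 ⟨a1, a3⟩
      · rw [Finset.mem_singleton] at hz
        subst hz
        exact Finset.mem_inter.2 ⟨a2, a4⟩
    have h4 := Finset.card_le_card h3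
    rw [Finset.card_pair hxy] at h4
    omega
  have hcnt : ∀ x, L.countP (fun F => decide (x ∈ F)) = (H.filter (fun F => x ∈ F)).card := by
    intro x
    rw [List.countP_eq_length_filter, ← List.toFinset_card_of_nodup (hnd.filter _)]
    congr 1
    ext F
    simp [hL]
  have hdegL : ∀ x, 2 * L.countP (fun F => decide (x ∈ F)) ≤ N := by
    intro x
    rw [hcnt]
    exact hdeg x
  obtain ⟨hInv, hkap⟩ := rounds k N hk hN L (fun F hF => hcard F ((hmem F).1 hF)) hlinL hdegL
    (Tn k) le_rfl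
  set m := (List.replicate (Tn k) L).flatten with hm
  set c : ℝ := 1 / (N * Tn k : ℝ) with hc
  set l := bld c m with hl
  have hkr : (0 : ℝ) < k := by exact_mod_cast hk
  have hTQ : (Tn k : ℝ) = 4 * k * 2 ^ (k + 1) := by unfold Tn; push_cast; ring
  have hqb1 : 2 ^ (k + 1) * c ≤ 1 := by
    rw [hc, hTQ]
    have h1 : (1 : ℝ) ≤ N := by exact_mod_cast hN1
    have h2 : (1 : ℝ) ≤ k := by exact_mod_cast hk
    rw [mul_one_div, div_le_one (by positivity)]
    have h3 : (0 : ℝ) < 2 ^ (k + 1) := by positivity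
    have h4 : (1 : ℝ) ≤ N * k := by nlinarith
    nlinarith
  have hgood : Good l := fun a ha => ⟨(hInv.1 a ha).1, (hInv.1 a ha).2.trans hqb1⟩
  have hlH : ∀ a ∈ l, a.1 ∈ H := by
    intro a ha
    have h1 : a.1 ∈ l.map Prod.fst := List.mem_map_of_mem ha
    rw [hl, map_fst_bld, hm, List.mem_flatten] at h1
    obtain ⟨M, hM, haM⟩ := h1
    rw [List.eq_of_mem_replicate hM] at haM
    exact (hmem _).1 haM
  -- the weights
  set w : Finset (Finset V) → ℝ := fun B => Ex l (fun B' => if B' = B then 1 else 0) with hw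
  have hsum : ∀ g : Finset (Finset V) → ℝ, ∑ B, w B * g B = Ex l g := by
    intro g
    have key : ∀ s : Finset (Finset (Finset V)),
        ∑ B ∈ s, w B * g B = Ex l (fun B' => ∑ B ∈ s, if B' = B then g B else 0) := by
      intro s
      induction s using Finset.induction_on with
      | empty => simp [Ex_const]
      | insert B s hB ih =>
        rw [Finset.sum_insert hB, ih]
        have e : (fun B' => ∑ B ∈ insert B s, if B' = B then g B else 0)
            = (fun B' => g B * (if B' = B then 1 else 0)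
              + 1 * ∑ B ∈ s, if B' = B then g B else 0) := by
          funext B'
          rw [Finset.sum_insert hB]
          split_ifs <;> ring
        rw [e, Ex_lin]
        ring
    rw [key Finset.univ]
    congr 1
    funext B'
    simp
  have hCB : Ar (2 ^ (k + 1) * c) (Tn k) = CB k / N := by
    unfold Ar CB
    rw [hc]
    field_simp
  have hpl : ∀ F, pl l F ≤ CB k / N := by
    intro F
    have h1 := pl_le l _ hInv.1 F
    have h2 : (l.map Prod.fst).count F ≤ Tn k := by
      rw [hl, map_fst_bld, hm, count_flatten_replicate]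
      have : L.count F ≤ 1 := List.nodup_iff_count_le_one.1 hnd F
      calc Tn k * L.count F ≤ Tn k * 1 := Nat.mul_le_mul_left _ this
        _ = Tn k := mul_one _
    have h3 : ((l.map Prod.fst).count F : ℝ) ≤ Tn k := by exact_mod_cast h2
    have h4 : 2 ^ (k + 1) * c * ((l.map Prod.fst).count F : ℕ) ≤ 2 ^ (k + 1) * c * Tn k :=
      mul_le_mul_of_nonneg_left h3 (by positivity)
    have h5 : 2 ^ (k + 1) * c * Tn k = 2 ^ (k + 1) / N := by
      rw [hc]
      field_simp
    have h6 : (2 : ℝ) ^ (k + 1) / N ≤ CB k / N := by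
      have := two_pow_le_CB k
      gcongr
    linarith
  have hCN : 0 ≤ CB k / N := by have := CB_pos k; positivity
  refine ⟨w, ?_, ?_, ?_, ?_, ?_, l.reverse, ?_, ?_, ?_⟩
  · intro B
    exact Ex_nonneg l hgood _ fun B' => by split_ifs <;> norm_num
  · have := hsum (fun _ => 1)
    simp only [mul_one] at this
    rw [this, Ex_const]
  · intro B hB
    by_contra hcon
    apply hB
    apply Ex_support l H hlH
    intro B' h1 h2
    rw [if_neg]
    rintro rfl
    exact hcon ⟨h1, h2⟩
  · intro F hF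
    rw [hsum, hl, hInv.2.2 F, hm, count_flatten_replicate]
    have : L.count F = 1 := List.count_eq_one_of_mem hnd ((hmem F).2 hF)
    rw [this, hc]
    push_cast
    field_simp
  · intro S T hST A D hA hD φ ψ hφ hψ hφ1 hψ1
    rw [hsum, hsum, hsum]
    have h1 := Cv_le l hgood S T hST A D hA hD φ ψ hφ hψ hφ1 hψ1
    unfold Cv at h1
    refine h1.trans ?_
    have hprod : ∀ A : Finset (Finset V), ∏ F ∈ A, pl l F ≤ (CB k / N) ^ A.card := by
      intro A
      have h2 : ∏ F ∈ A, pl l F ≤ ∏ _F ∈ A, (CB k / N) :=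
        Finset.prod_le_prod (fun F _ => pl_nonneg l hgood F) (fun F _ => hpl F)
      rwa [Finset.prod_const] at h2
    have hPhi : Phi l S T ≤ (CB k / N) * (S.card * T.card) := by
      unfold Phi
      have e1 : ∀ x ∈ S, ∑ y ∈ T, kap l x y ≤ T.card * (CB k / N) := by
        intro x hx
        have : ∑ y ∈ T, kap l x y ≤ ∑ _y ∈ T, (CB k / N) := by
          apply Finset.sum_le_sum
          intro y hy
          have hxy : x ≠ y := by
            rintro rfl
            exact Finset.disjoint_left.1 hST hx hy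
          have := hkap x y hxy
          rwa [hCB] at this
        rwa [Finset.sum_const, nsmul_eq_mul] at this
      have e2 := Finset.sum_le_sum e1
      rw [Finset.sum_const, nsmul_eq_mul] at e2
      linarith
    rw [pow_succ, pow_add]
    have pA := prod_pl_nonneg l hgood A
    have pD := prod_pl_nonneg l hgood D
    have pP := Phi_nonneg l hgood S T
    calc (∏ F ∈ A, pl l F) * (∏ F ∈ D, pl l F) * Phi l S T
        ≤ ((CB k / N) ^ A.card * (CB k / N) ^ D.card) * ((CB k / N) * (S.card * T.card)) :=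
          mul_le_mul (mul_le_mul (hprod A) (hprod D) pD (by positivity)) hPhi pP (by positivity)
      _ = (CB k / N) ^ A.card * (CB k / N) ^ D.card * (CB k / N) * (S.card * T.card) := by ring
  · rw [List.map_reverse, hl, map_fst_bld, hm]
    exact reverse_flatten_replicate L (Tn k)
  · intro b hb
    rw [List.mem_reverse] at hb
    exact hInv.1 b hb
  · intro g
    rw [hsum, Ex_eq_run]

variable [Fintype V]

/-- exponential concentration of the weight of the matching -/
def Conc (C : ℝ) (N : ℕ) (H : Finset (Finset V)) (w : Finset (Finset V) → ℝ) : Prop :=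
  ∀ (a : Finset V → ℝ) (a₀ s : ℝ), 0 ≤ a₀ → (∀ F ∈ H, 0 ≤ a F ∧ a F ≤ a₀) →
    |s| * a₀ * C ≤ 1 →
    ev w (fun B => Real.exp (s * (∑ F ∈ B, a F - (∑ F ∈ H, a F) / N)))
      ≤ Real.exp (C * s ^ 2 * a₀ * ((∑ F ∈ H, a F) / N))

/-- LAW B with concentration -/
theorem exists_law_conc (k : ℕ) (hk : 0 < k) (H : Finset (Finset V)) (N : ℕ) (hN : NB k ≤ N)
    (hcard : ∀ F ∈ H, F.Nonempty ∧ F.card ≤ k)
    (hlin : ∀ F ∈ H, ∀ G ∈ H, F ≠ G → (F ∩ G).card ≤ 1)
    (hdeg : ∀ x, 2 * (H.filter (fun F => x ∈ F)).card ≤ N) :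
    ∃ w : Finset (Finset V) → ℝ, Law (CB k) N H w ∧ Conc (CC k) N H w := by
  obtain ⟨w, h1, h2, h3, h4, h5, c, hcL, hcq, hrun⟩ := lawB_run k hk V H N hN hcard hlin hdeg
  refine ⟨w, ⟨h1, h2, h3, h4, h5⟩, ?_⟩
  intro a a₀ s ha₀ ha hs
  have hN1 : 1 ≤ N := by unfold NB at hN; omega
  have hNr : (0 : ℝ) < N := by exact_mod_cast hN1
  set a' : Finset V → ℝ := fun F => if F ∈ H then a F else 0 with ha'
  have ha0 : ∀ F, 0 ≤ a' F := by
    intro F
    by_cases h : F ∈ H
    · have e : a' F = a F := if_pos h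
      rw [e]; exact (ha F h).1
    · have e : a' F = 0 := if_neg h
      rw [e]
  have haa : ∀ F, a' F ≤ a₀ := by
    intro F
    by_cases h : F ∈ H
    · have e : a' F = a F := if_pos h
      rw [e]; exact (ha F h).2
    · have e : a' F = 0 := if_neg h
      rw [e]; exact ha₀
  have haH : ∀ F ∈ H, a' F = a F := fun F h => if_pos h
  set S : ℝ := (∑ F ∈ H, a F) / N with hSdef
  have hS : 0 ≤ S := div_nonneg (Finset.sum_nonneg fun F hF => (ha F hF).1) hNr.le
  have hdegL : ∀ x, 2 * H.toList.reverse.countP (fun F => decide (x ∈ F)) ≤ N := by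
    intro x
    rw [List.countP_reverse, List.countP_eq_length_filter,
      ← List.toFinset_card_of_nodup (H.nodup_toList.filter _)]
    have e : (List.filter (fun F => decide (x ∈ F)) H.toList).toFinset
        = H.filter (fun F => x ∈ F) := by
      ext F; simp
    rw [e]
    exact hdeg x
  have hsumL : (H.toList.reverse.map a').sum = N * S := by
    rw [List.map_reverse, List.sum_reverse]
    have e : (H.toList.map a').sum = ∑ F ∈ H, a' F := Finset.sum_map_toList H a'
    rw [e, Finset.sum_congr rfl haH, hSdef]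
    field_simp
  have key := conc_chain k N hk hN1 a₀ S s ha₀ hS a' ha0 haa H.toList.reverse
    (fun F hF => hcard F (Finset.mem_toList.1 (List.mem_reverse.1 hF))) hdegL hsumL.le hs c hcL hcq
  rw [← hrun] at key
  -- the expectation of the weight
  have hne : ∀ b ∈ c, b.1.Nonempty := by
    intro b hb
    have h1 : b.1 ∈ c.map Prod.fst := List.mem_map_of_mem hb
    rw [hcL, List.mem_flatten] at h1
    obtain ⟨M, hM, haM⟩ := h1
    rw [List.eq_of_mem_replicate hM] at haM
    exact (hcard _ (Finset.mem_toList.1 (List.mem_reverse.1 haM))).1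
  have hW : Wf a' c ∅ = S := by
    have e1 := run_Rw a' c hne ∅
    rw [← hrun] at e1
    have e2 : Rw a' (∅ : Finset (Finset V)) = 0 := by unfold Rw; simp
    rw [e2, cov_empty, zero_add] at e1
    rw [← e1]
    have e3 : ∀ B, w B * Rw a' B = w B * ∑ F ∈ H, a' F * ins {F} B := by
      intro B
      by_cases hB : w B = 0
      · rw [hB, zero_mul, zero_mul]
      · have hBH := (h3 B hB).1
        congr 1
        unfold Rw
        rw [← Finset.sum_subset hBH]
        · apply Finset.sum_congr rfl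
          intro F hF
          unfold ins
          rw [if_pos (Finset.singleton_subset_iff.2 hF), mul_one]
        · intro F _ hF
          unfold ins
          rw [if_neg (fun h => hF (Finset.singleton_subset_iff.1 h)), mul_zero]
    rw [Finset.sum_congr rfl fun B _ => e3 B]
    have e4 : ∑ B, w B * ∑ F ∈ H, a' F * ins {F} B
        = ∑ F ∈ H, a' F * ∑ B, w B * ins {F} B := by
      simp only [Finset.mul_sum]
      rw [Finset.sum_comm]
      exact Finset.sum_congr rfl fun F _ => Finset.sum_congr rfl fun B _ => by ring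
    rw [e4]
    have e5 : ∑ F ∈ H, a' F * ∑ B, w B * ins {F} B = ∑ F ∈ H, a F * (1 / N) :=
      Finset.sum_congr rfl fun F hF => by rw [h4 F hF, haH F hF]
    rw [e5, ← Finset.sum_mul, hSdef]
    ring
  rw [hW] at key
  have e6 : ev w (fun B => Real.exp (s * (∑ F ∈ B, a F - S)))
      = Real.exp (-(s * S)) * ∑ B, w B * Real.exp (s * Rw a' B) := by
    unfold ev
    rw [Finset.mul_sum]
    apply Finset.sum_congr rfl
    intro B _
    by_cases hB : w B = 0
    · rw [hB]; ring
    · have hBH := (h3 B hB).1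
      have e7 : Rw a' B = ∑ F ∈ B, a F := Finset.sum_congr rfl fun F hF => haH F (hBH hF)
      rw [e7]
      have e8 : s * (∑ F ∈ B, a F - S) = -(s * S) + s * ∑ F ∈ B, a F := by ring
      beta_reduce
      rw [e8, Real.exp_add]
      ring
  rw [e6]
  have h9 := mul_le_mul_of_nonneg_left key (Real.exp_pos (-(s * S))).le
  rw [← Real.exp_add] at h9
  have e10 : -(s * S) + (s * S + CC k * s ^ 2 * a₀ * S) = CC k * s ^ 2 * a₀ * S := by ring
  rw [e10] at h9
  exact h9

end Pool.Agent.LawB
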