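import Pool.Agent.LawB.Defs

/-!
# LawB: the covariance bound
-/

namespace Pool.Agent.LawB

open Finset

variable {V : Type*} [DecidableEq V]

/-- the function after a successful coin -/
noncomputable def hit (F : Finset V) (f : Finset (Finset V) → ℝ) (B : Finset (Finset V)) : ℝ :=
  if Disjoint F (cov B) then f (insert F B) else f B

lemma step_eq_hit (F : Finset V) (q : ℝ) (f : Finset (Finset V) → ℝ) :
    step F q f = fun B => (1 - q) * f B + q * hit F f B := by
  funext B
  unfold step hit
  split_ifs <;> ring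

lemma hit_of_disjoint {F S : Finset V} {f : Finset (Finset V) → ℝ} (hf : Dep S f)
    (h : Disjoint F S) : hit F f = f := by
  funext B
  unfold hit
  split_ifs
  · apply hf
    intro G hG
    rw [Finset.mem_insert]
    constructor
    · rintro (rfl | h')
      · exact absurd h hG
      · exact h'
    · exact Or.inr
  · rfl

lemma step_of_hit {F : Finset V} {f : Finset (Finset V) → ℝ} (q : ℝ) (h : hit F f = f) :
    step F q f = f := by
  rw [step_eq_hit, h]
  funext B
  ring

lemma disj_cov_iff {F S : Finset V} {B B' : Finset (Finset V)}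
    (h : ∀ G, ¬ Disjoint G (S ∪ F) → (G ∈ B ↔ G ∈ B')) :
    Disjoint F (cov B) ↔ Disjoint F (cov B') := by
  have key : ∀ C C' : Finset (Finset V), (∀ G, ¬ Disjoint G (S ∪ F) → (G ∈ C ↔ G ∈ C')) →
      Disjoint F (cov C) → Disjoint F (cov C') := by
    intro C C' hC hd
    rw [Finset.disjoint_left] at hd ⊢
    intro x hx hx'
    obtain ⟨G, hG, hxG⟩ := Finset.mem_biUnion.1 hx'
    have hxG' : x ∈ G := hxG
    have hn : ¬ Disjoint G (S ∪ F) := fun h' =>
      Finset.disjoint_left.1 h' hxG' (Finset.mem_union_right _ hx)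
    exact hd hx (Finset.mem_biUnion.2 ⟨G, (hC G hn).2 hG, hxG⟩)
  exact ⟨key B B' h, key B' B fun G hG => (h G hG).symm⟩

omit [DecidableEq V] in
lemma dep_mono {S S' : Finset V} {f : Finset (Finset V) → ℝ} (hf : Dep S f) (h : S ⊆ S') :
    Dep S' f := fun B B' hB => hf B B' fun F hF => hB F fun hd =>
      hF (Finset.disjoint_of_subset_right h hd)

lemma dep_hit {F S : Finset V} {f : Finset (Finset V) → ℝ} (hf : Dep S f) :
    Dep (S ∪ F) (hit F f) := by
  intro B B' h
  have hd := disj_cov_iff h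
  have hS : ∀ G, ¬ Disjoint G S → (G ∈ B ↔ G ∈ B') := fun G hG =>
    h G fun h' => hG (Finset.disjoint_of_subset_right Finset.subset_union_left h')
  unfold hit
  by_cases hB : Disjoint F (cov B)
  · rw [if_pos hB, if_pos (hd.1 hB)]
    apply hf
    intro G hG
    rw [Finset.mem_insert, Finset.mem_insert, hS G hG]
  · rw [if_neg hB, if_neg (fun h' => hB (hd.2 h'))]
    exact hf _ _ hS

lemma dep_ali (S : Finset V) : Dep S (ali S) := by
  intro B B' h
  have : Disjoint S (cov B) ↔ Disjoint S (cov B') := by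
    apply disj_cov_iff (S := ∅)
    intro G hG
    apply h
    rwa [Finset.empty_union] at hG
  unfold ali
  by_cases hB : Disjoint S (cov B)
  · rw [if_pos hB, if_pos (this.1 hB)]
  · rw [if_neg hB, if_neg (fun h' => hB (this.2 h'))]

lemma ali_mem (S : Finset V) (B : Finset (Finset V)) : 0 ≤ ali S B ∧ ali S B ≤ 1 := by
  unfold ali
  split_ifs
  · exact ⟨zero_le_one, le_rfl⟩
  · exact ⟨le_rfl, zero_le_one⟩

lemma ins_mem (A : Finset (Finset V)) (B : Finset (Finset V)) : 0 ≤ ins A B ∧ ins A B ≤ 1 := by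
  unfold ins
  split_ifs
  · exact ⟨zero_le_one, le_rfl⟩
  · exact ⟨le_rfl, zero_le_one⟩

omit [DecidableEq V] in
lemma dep_mul {S : Finset V} {f g : Finset (Finset V) → ℝ} (hf : Dep S f) (hg : Dep S g) :
    Dep S (fun B => f B * g B) := by
  intro B B' h
  change f B * g B = f B' * g B'
  rw [hf B B' h, hg B B' h]

lemma dep_ins {S : Finset V} {A : Finset (Finset V)} (h : ∀ F ∈ A, F ⊆ S ∧ F.Nonempty) :
    Dep S (ins A) := by
  intro B B' hB
  have : A ⊆ B ↔ A ⊆ B' := by
    have key : ∀ F ∈ A, (F ∈ B ↔ F ∈ B') := by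
      intro F hF
      apply hB
      intro hd
      obtain ⟨x, hx⟩ := (h F hF).2
      exact Finset.disjoint_left.1 hd hx ((h F hF).1 hx)
    constructor
    · intro hs F hF
      exact (key F hF).1 (hs hF)
    · intro hs F hF
      exact (key F hF).2 (hs hF)
  unfold ins
  by_cases hA : A ⊆ B
  · rw [if_pos hA, if_pos (this.1 hA)]
  · rw [if_neg hA, if_neg (fun h' => hA (this.2 h'))]

lemma hit_mem {F : Finset V} {f : Finset (Finset V) → ℝ} (h : ∀ B, 0 ≤ f B ∧ f B ≤ 1) :
    ∀ B, 0 ≤ hit F f B ∧ hit F f B ≤ 1 := by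
  intro B
  unfold hit
  split_ifs
  · exact h _
  · exact h _

omit [DecidableEq V] in
lemma mul_mem {f g : Finset (Finset V) → ℝ} (hf : ∀ B, 0 ≤ f B ∧ f B ≤ 1)
    (hg : ∀ B, 0 ≤ g B ∧ g B ≤ 1) : ∀ B, 0 ≤ f B * g B ∧ f B * g B ≤ 1 := by
  intro B
  refine ⟨mul_nonneg (hf B).1 (hg B).1, ?_⟩
  have := mul_le_mul (hf B).2 (hg B).2 (hg B).1 zero_le_one
  linarith

lemma hit_mul (F : Finset V) (f g : Finset (Finset V) → ℝ) :
    hit F (fun B => f B * g B) = fun B => hit F f B * hit F g B := by
  funext B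
  unfold hit
  split_ifs <;> rfl

lemma hit_ins_notMem {F : Finset V} {A : Finset (Finset V)} (h : F ∉ A) :
    hit F (ins A) = ins A := by
  funext B
  unfold hit ins
  have : A ⊆ insert F B ↔ A ⊆ B := by
    rw [Finset.subset_insert_iff, Finset.erase_eq_of_notMem h]
  simp only [this, ite_self]

/-- a successful attempt at a member of `A` -/
lemma hit_ins_mem {F : Finset V} {A : Finset (Finset V)} (h : F ∈ A) (hF : F.Nonempty)
    (φ : Finset (Finset V) → ℝ) :
    hit F (fun B => ins A B * φ B) =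
      fun B => ins A B * φ B + ins (A.erase F) B * (ali F B * hit F φ B) := by
  funext B
  unfold hit ali
  by_cases hB : Disjoint F (cov B)
  · have hn : F ∉ B := by
      intro hFB
      obtain ⟨x, hx⟩ := hF
      exact Finset.disjoint_left.1 hB hx (Finset.mem_biUnion.2 ⟨F, hFB, hx⟩)
    rw [if_pos hB, if_pos hB, if_pos hB]
    have h0 : ins A B = 0 := by
      unfold ins
      rw [if_neg (fun h' => hn (h' h))]
    have h1 : ins A (insert F B) = ins (A.erase F) B := by
      unfold ins
      simp only [Finset.subset_insert_iff]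
    change ins A (insert F B) * φ (insert F B) = _
    rw [h1, h0]
    ring
  · rw [if_neg hB, if_neg hB]
    ring

/-- the covariance -/
noncomputable def Cv (l : List (Finset V × ℝ)) (f g : Finset (Finset V) → ℝ) : ℝ :=
  Ex l (fun B => f B * g B) - Ex l f * Ex l g

lemma Cv_symm (l : List (Finset V × ℝ)) (f g : Finset (Finset V) → ℝ) : Cv l f g = Cv l g f := by
  unfold Cv
  have e : (fun B => f B * g B) = (fun B => g B * f B) := by
    funext B; ring
  rw [e, mul_comm (Ex l f)]

lemma Cv_add (l : List (Finset V × ℝ)) (f f' g : Finset (Finset V) → ℝ) :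
    Cv l (fun B => f B + f' B) g = Cv l f g + Cv l f' g := by
  unfold Cv
  have e1 : (fun B => (f B + f' B) * g B) = (fun B => 1 * (f B * g B) + 1 * (f' B * g B)) := by
    funext B; ring
  have e2 : (fun B => f B + f' B) = (fun B => 1 * f B + 1 * f' B) := by
    funext B; ring
  rw [e1, e2, Ex_lin, Ex_lin]
  ring

/-- the double sum of `kap` -/
noncomputable def Phi (l : List (Finset V × ℝ)) (S T : Finset V) : ℝ :=
  ∑ x ∈ S, ∑ y ∈ T, kap l x y

lemma Phi_symm (l : List (Finset V × ℝ)) (S T : Finset V) : Phi l S T = Phi l T S := by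
  unfold Phi
  rw [Finset.sum_comm]
  exact Finset.sum_congr rfl fun _ _ => Finset.sum_congr rfl fun _ _ => kap_symm _ _ _

lemma Phi_nonneg (l : List (Finset V × ℝ)) (hl : Good l) (S T : Finset V) : 0 ≤ Phi l S T :=
  Finset.sum_nonneg fun _ _ => Finset.sum_nonneg fun _ _ => kap_nonneg l hl _ _

lemma Phi_mono (a : Finset V × ℝ) (l : List (Finset V × ℝ)) (hl : Good (a :: l))
    (S T : Finset V) : Phi l S T ≤ Phi (a :: l) S T :=
  Finset.sum_le_sum fun _ _ => Finset.sum_le_sum fun _ _ => kap_le_cons a l hl _ _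

lemma Phi_union (l : List (Finset V × ℝ)) (hl : Good l) (S F T : Finset V) :
    Phi l (S ∪ F) T ≤ Phi l S T + Phi l F T := by
  unfold Phi
  have h := Finset.sum_union_inter (s₁ := S) (s₂ := F) (f := fun x => ∑ y ∈ T, kap l x y)
  have h0 : 0 ≤ ∑ x ∈ S ∩ F, ∑ y ∈ T, kap l x y :=
    Finset.sum_nonneg fun _ _ => Finset.sum_nonneg fun _ _ => kap_nonneg l hl _ _
  linarith

lemma Phi_cons_left (a : Finset V × ℝ) (l : List (Finset V × ℝ)) (hl : Good (a :: l))
    (S T : Finset V) (x₀ : V) (hx : x₀ ∈ S) (hxa : x₀ ∈ a.1) (hT : Disjoint a.1 T) :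
    Phi l S T + a.2 * Phi l a.1 T ≤ Phi (a :: l) S T := by
  have hl' : Good l := fun b hb => hl b (List.mem_cons_of_mem _ hb)
  have ha := (hl a List.mem_cons_self).1
  have key : ∀ y ∈ T, kap l x₀ y + a.2 * ∑ x' ∈ a.1, kap l x' y ≤ kap (a :: l) x₀ y := by
    intro y hy
    have hya : y ∉ a.1 := fun h => Finset.disjoint_left.1 hT h hy
    conv_rhs => unfold kap
    rw [if_pos ⟨hxa, hya⟩, if_neg (fun h => hya h.1), if_neg (fun h => hya h.2)]
    linarith
  unfold Phi
  have e : a.2 * ∑ x ∈ a.1, ∑ y ∈ T, kap l x y = ∑ y ∈ T, a.2 * ∑ x' ∈ a.1, kap l x' y := by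
    rw [Finset.sum_comm, Finset.mul_sum]
  rw [e, ← Finset.add_sum_erase _ _ hx, ← Finset.add_sum_erase _ _ hx]
  have h1 : ∑ y ∈ T, kap l x₀ y + ∑ y ∈ T, a.2 * ∑ x' ∈ a.1, kap l x' y
      ≤ ∑ y ∈ T, kap (a :: l) x₀ y := by
    rw [← Finset.sum_add_distrib]
    exact Finset.sum_le_sum key
  have h2 : ∑ x ∈ S.erase x₀, ∑ y ∈ T, kap l x y ≤ ∑ x ∈ S.erase x₀, ∑ y ∈ T, kap (a :: l) x y :=
    Finset.sum_le_sum fun _ _ => Finset.sum_le_sum fun _ _ => kap_le_cons a l hl _ _
  linarith

lemma Phi_cons_both (a : Finset V × ℝ) (l : List (Finset V × ℝ)) (hl : Good (a :: l))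
    (S T : Finset V) (x₀ y₀ : V) (hx : x₀ ∈ S) (hxa : x₀ ∈ a.1) (hy : y₀ ∈ T) (hya : y₀ ∈ a.1) :
    Phi l S T + 2 * a.2 ≤ Phi (a :: l) S T := by
  have key : kap l x₀ y₀ + 2 * a.2 ≤ kap (a :: l) x₀ y₀ := by
    conv_rhs => unfold kap
    rw [if_neg (fun h => h.2 hya), if_neg (fun h => h.2 hxa), if_pos ⟨hxa, hya⟩]
    linarith
  unfold Phi
  rw [← Finset.add_sum_erase _ _ hx, ← Finset.add_sum_erase _ _ hx]
  have h1 : ∑ y ∈ T, kap l x₀ y + 2 * a.2 ≤ ∑ y ∈ T, kap (a :: l) x₀ y := by
    rw [← Finset.add_sum_erase _ _ hy, ← Finset.add_sum_erase _ _ hy]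
    have : ∑ y ∈ T.erase y₀, kap l x₀ y ≤ ∑ y ∈ T.erase y₀, kap (a :: l) x₀ y :=
      Finset.sum_le_sum fun _ _ => kap_le_cons a l hl _ _
    linarith
  have h2 : ∑ x ∈ S.erase x₀, ∑ y ∈ T, kap l x y ≤ ∑ x ∈ S.erase x₀, ∑ y ∈ T, kap (a :: l) x y :=
    Finset.sum_le_sum fun _ _ => Finset.sum_le_sum fun _ _ => kap_le_cons a l hl _ _
  linarith

/-- one attempt that does not touch `g` -/
lemma Cv_cons_left (a : Finset V × ℝ) (l : List (Finset V × ℝ))
    (f g : Finset (Finset V) → ℝ) (hg : hit a.1 g = g) :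
    Cv (a :: l) f g = (1 - a.2) * Cv l f g + a.2 * Cv l (hit a.1 f) g := by
  have e1 : step a.1 a.2 (fun B => f B * g B)
      = fun B => (1 - a.2) * (f B * g B) + a.2 * (hit a.1 f B * g B) := by
    rw [step_eq_hit, hit_mul, hg]
  unfold Cv
  rw [Ex_cons, Ex_cons, Ex_cons, e1, Ex_lin, step_of_hit _ hg, step_eq_hit, Ex_lin]
  ring

/-- the chance that all members of `A` are present -/
theorem Ex_ins_le (l : List (Finset V × ℝ)) (hl : Good l) :
    ∀ (A : Finset (Finset V)) (_ : ∀ F ∈ A, F.Nonempty) (φ : Finset (Finset V) → ℝ)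
      (_ : ∀ B, 0 ≤ φ B ∧ φ B ≤ 1), 0 ≤ Ex l (fun B => ins A B * φ B) ∧
      Ex l (fun B => ins A B * φ B) ≤ ∏ F ∈ A, pl l F := by
  induction l with
  | nil =>
    intro A _ φ hφ
    rw [Ex_nil]
    by_cases hA : A = ∅
    · subst hA
      have e : ins (∅ : Finset (Finset V)) ∅ = 1 := by simp [ins]
      rw [e, one_mul, Finset.prod_empty]
      exact hφ ∅
    · obtain ⟨F, hF⟩ := Finset.nonempty_iff_ne_empty.2 hA
      have e : ins A (∅ : Finset (Finset V)) = 0 := by
        unfold ins
        rw [if_neg (fun h => hA (Finset.subset_empty.1 h))]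
      rw [e, zero_mul]
      exact ⟨le_rfl, prod_pl_nonneg _ hl A⟩
  | cons a l ih =>
    have hl' : Good l := fun b hb => hl b (List.mem_cons_of_mem _ hb)
    obtain ⟨ha0, ha1⟩ := hl a List.mem_cons_self
    intro A hA φ hφ
    refine ⟨Ex_nonneg _ hl _ fun B => mul_nonneg (ins_mem A B).1 (hφ B).1, ?_⟩
    have h1 := ih hl' A hA φ hφ
    rw [Ex_cons, step_eq_hit, Ex_lin]
    by_cases ha : a.1 ∈ A
    · rw [hit_ins_mem ha (hA _ ha)]
      have h2 := ih hl' (A.erase a.1) (fun F hF => hA F (Finset.mem_of_mem_erase hF))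
        (fun B => ali a.1 B * hit a.1 φ B) (mul_mem (ali_mem _) (hit_mem hφ))
      have e : Ex l (fun B => ins A B * φ B + ins (A.erase a.1) B * (ali a.1 B * hit a.1 φ B))
          = Ex l (fun B => ins A B * φ B)
            + Ex l (fun B => ins (A.erase a.1) B * (ali a.1 B * hit a.1 φ B)) := by
        have := Ex_lin l 1 1 (fun B => ins A B * φ B)
          (fun B => ins (A.erase a.1) B * (ali a.1 B * hit a.1 φ B))
        simpa using this
      rw [e, prod_pl_mem a l A ha]
      have h3 := mul_le_mul_of_nonneg_left h2.2 ha0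
      nlinarith [h1.1, h1.2, h3]
    · rw [hit_mul, hit_ins_notMem ha]
      have h2 := ih hl' A hA (hit a.1 φ) (hit_mem hφ)
      have h3 := mul_le_mul_of_nonneg_left h2.2 ha0
      have h4 := mul_le_mul_of_nonneg_left h1.2 (sub_nonneg.2 ha1)
      have h5 := prod_pl_mono a l hl A
      linarith

/-- the covariance bound, relative form -/
theorem Cv_le (l : List (Finset V × ℝ)) (hl : Good l) :
    ∀ (S T : Finset V) (_ : Disjoint S T) (A D : Finset (Finset V))
      (_ : ∀ F ∈ A, F ⊆ S ∧ F.Nonempty) (_ : ∀ F ∈ D, F ⊆ T ∧ F.Nonempty)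
      (φ ψ : Finset (Finset V) → ℝ) (_ : Dep S φ) (_ : Dep T ψ)
      (_ : ∀ B, 0 ≤ φ B ∧ φ B ≤ 1) (_ : ∀ B, 0 ≤ ψ B ∧ ψ B ≤ 1),
      |Cv l (fun B => ins A B * φ B) (fun B => ins D B * ψ B)| ≤
        (∏ F ∈ A, pl l F) * (∏ F ∈ D, pl l F) * Phi l S T := by
  induction l with
  | nil =>
    intro S T _ A D _ _ φ ψ _ _ _ _
    unfold Cv
    simp only [Ex_nil, sub_self, abs_zero]
    exact mul_nonneg (mul_nonneg (prod_pl_nonneg _ hl A) (prod_pl_nonneg _ hl D))
      (Phi_nonneg _ hl _ _)
  | cons a l ih =>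
    have hl' : Good l := fun b hb => hl b (List.mem_cons_of_mem _ hb)
    have ih' := ih hl'
    obtain ⟨ha0, ha1⟩ := hl a List.mem_cons_self
    -- the case of an attempt that does not meet the second set
    have left : ∀ (S T : Finset V) (_ : Disjoint S T) (A D : Finset (Finset V))
        (_ : ∀ F ∈ A, F ⊆ S ∧ F.Nonempty) (_ : ∀ F ∈ D, F ⊆ T ∧ F.Nonempty)
        (φ ψ : Finset (Finset V) → ℝ) (_ : Dep S φ) (_ : Dep T ψ)
        (_ : ∀ B, 0 ≤ φ B ∧ φ B ≤ 1) (_ : ∀ B, 0 ≤ ψ B ∧ ψ B ≤ 1) (_ : Disjoint a.1 T),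
        |Cv (a :: l) (fun B => ins A B * φ B) (fun B => ins D B * ψ B)| ≤
          (∏ F ∈ A, pl (a :: l) F) * (∏ F ∈ D, pl (a :: l) F) * Phi (a :: l) S T := by
      intro S T hST A D hA hD φ ψ hφ hψ hφ1 hψ1 hT
      have hg : hit a.1 (fun B => ins D B * ψ B) = (fun B => ins D B * ψ B) :=
        hit_of_disjoint (dep_mul (dep_ins hD) hψ) hT
      rw [Cv_cons_left a l _ _ hg]
      have h1 := ih' S T hST A D hA hD φ ψ hφ hψ hφ1 hψ1
      have pA := prod_pl_nonneg l hl' A
      have pD := prod_pl_nonneg l hl' D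
      have mA := prod_pl_mono a l hl A
      have mD := prod_pl_mono a l hl D
      have mP := Phi_mono a l hl S T
      have nP := Phi_nonneg l hl' S T
      by_cases ha : a.1 ∈ A
      · -- an attempt at a member of `A`
        rw [hit_ins_mem ha (hA _ ha).2, Cv_add]
        have hdep : Dep S (fun B => ali a.1 B * hit a.1 φ B) := by
          apply dep_mul
          · exact dep_mono (dep_ali a.1) (hA _ ha).1
          · have := dep_hit (F := a.1) hφ
            rwa [Finset.union_eq_left.2 (hA _ ha).1] at this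
        have h2 := ih' S T hST (A.erase a.1) D (fun F hF => hA F (Finset.mem_of_mem_erase hF)) hD
          (fun B => ali a.1 B * hit a.1 φ B) ψ hdep hψ (mul_mem (ali_mem _) (hit_mem hφ1)) hψ1
        have pE := prod_pl_nonneg l hl' (A.erase a.1)
        have e : (1 - a.2) * Cv l (fun B => ins A B * φ B) (fun B => ins D B * ψ B)
            + a.2 * (Cv l (fun B => ins A B * φ B) (fun B => ins D B * ψ B)
              + Cv l (fun B => ins (A.erase a.1) B * (ali a.1 B * hit a.1 φ B))
                (fun B => ins D B * ψ B))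
            = Cv l (fun B => ins A B * φ B) (fun B => ins D B * ψ B)
              + a.2 * Cv l (fun B => ins (A.erase a.1) B * (ali a.1 B * hit a.1 φ B))
                (fun B => ins D B * ψ B) := by ring
        rw [e]
        refine (abs_add_le _ _).trans ?_
        rw [abs_mul, abs_of_nonneg ha0]
        have h3 := mul_le_mul_of_nonneg_left h2 ha0
        calc _ ≤ (∏ F ∈ A, pl l F) * (∏ F ∈ D, pl l F) * Phi l S T
              + a.2 * ((∏ F ∈ A.erase a.1, pl l F) * (∏ F ∈ D, pl l F) * Phi l S T) :=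
              add_le_add h1 h3
          _ = (∏ F ∈ A, pl (a :: l) F) * (∏ F ∈ D, pl l F) * Phi l S T := by
              rw [prod_pl_mem a l A ha]; ring
          _ ≤ (∏ F ∈ A, pl (a :: l) F) * (∏ F ∈ D, pl (a :: l) F) * Phi (a :: l) S T := by
              have q1 : 0 ≤ ∏ F ∈ A, pl (a :: l) F := pA.trans mA
              exact mul_le_mul (mul_le_mul_of_nonneg_left mD q1) mP nP
                (mul_nonneg q1 (pD.trans mD))
      · rw [hit_mul, hit_ins_notMem ha]
        have fin : (∏ F ∈ A, pl l F) * (∏ F ∈ D, pl l F) * Phi (a :: l) S T ≤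
            (∏ F ∈ A, pl (a :: l) F) * (∏ F ∈ D, pl (a :: l) F) * Phi (a :: l) S T :=
          mul_le_mul_of_nonneg_right (mul_le_mul mA mD pD (pA.trans mA)) (nP.trans mP)
        refine le_trans ?_ fin
        by_cases hS : Disjoint a.1 S
        · rw [hit_of_disjoint hφ hS]
          have e : (1 - a.2) * Cv l (fun B => ins A B * φ B) (fun B => ins D B * ψ B)
              + a.2 * Cv l (fun B => ins A B * φ B) (fun B => ins D B * ψ B)
              = Cv l (fun B => ins A B * φ B) (fun B => ins D B * ψ B) := by ring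
          rw [e]
          exact h1.trans (mul_le_mul_of_nonneg_left mP (mul_nonneg pA pD))
        · rw [Finset.not_disjoint_iff] at hS
          obtain ⟨x₀, hx₀a, hx₀S⟩ := hS
          have h2 := ih' (S ∪ a.1) T (Finset.disjoint_union_left.2 ⟨hST, hT⟩) A D
            (fun F hF => ⟨(hA F hF).1.trans Finset.subset_union_left, (hA F hF).2⟩) hD
            (hit a.1 φ) ψ (dep_hit hφ) hψ (hit_mem hφ1) hψ1
          have h3 := Phi_union l hl' S a.1 T
          have h4 := Phi_cons_left a l hl S T x₀ hx₀S hx₀a hT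
          refine (abs_add_le _ _).trans ?_
          rw [abs_mul, abs_mul, abs_of_nonneg ha0, abs_of_nonneg (sub_nonneg.2 ha1)]
          have h5 := mul_le_mul_of_nonneg_left h1 (sub_nonneg.2 ha1)
          have h6 := mul_le_mul_of_nonneg_left h2 ha0
          have pAD := mul_nonneg pA pD
          have h7 := mul_le_mul_of_nonneg_left h3 pAD
          have h8 := mul_le_mul_of_nonneg_left h4 pAD
          have h9 := mul_le_mul_of_nonneg_left h7 ha0
          nlinarith [h5, h6, h8, h9]
    intro S T hST A D hA hD φ ψ hφ hψ hφ1 hψ1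
    by_cases hT : Disjoint a.1 T
    · exact left S T hST A D hA hD φ ψ hφ hψ hφ1 hψ1 hT
    · by_cases hS : Disjoint a.1 S
      · rw [Cv_symm, Phi_symm, mul_comm (∏ F ∈ A, pl (a :: l) F)]
        exact left T S hST.symm D A hD hA ψ φ hψ hφ hψ1 hφ1 hS
      · -- an attempt that meets both sets
        have haA : a.1 ∉ A := fun h => hT (Finset.disjoint_of_subset_left (hA _ h).1 hST)
        have haD : a.1 ∉ D := fun h => hS (Finset.disjoint_of_subset_left (hD _ h).1 hST.symm)
        have h1 := ih' S T hST A D hA hD φ ψ hφ hψ hφ1 hψ1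
        rw [Finset.not_disjoint_iff] at hS hT
        obtain ⟨x₀, hx₀a, hx₀S⟩ := hS
        obtain ⟨y₀, hy₀a, hy₀T⟩ := hT
        have h2 := Phi_cons_both a l hl S T x₀ y₀ hx₀S hx₀a hy₀T hy₀a
        have pA := prod_pl_nonneg l hl' A
        have pD := prod_pl_nonneg l hl' D
        have mA := prod_pl_mono a l hl A
        have mD := prod_pl_mono a l hl D
        have nP := Phi_nonneg l hl' S T
        set P := ∏ F ∈ A, pl l F with hP
        set R := ∏ F ∈ D, pl l F with hR
        have hAn : ∀ F ∈ A, F.Nonempty := fun F hF => (hA F hF).2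
        have hDn : ∀ F ∈ D, F.Nonempty := fun F hF => (hD F hF).2
        have r1 := hit_mem (F := a.1) hφ1
        have r2 := hit_mem (F := a.1) hψ1
        have bf := Ex_ins_le l hl' A hAn φ hφ1
        have bg := Ex_ins_le l hl' D hDn ψ hψ1
        have bf1 := Ex_ins_le l hl' A hAn (hit a.1 φ) r1
        have bg1 := Ex_ins_le l hl' D hDn (hit a.1 ψ) r2
        -- the product of the two
        have hAD : Disjoint A D := by
          rw [Finset.disjoint_left]
          intro F hFA hFD
          obtain ⟨x, hx⟩ := hAn F hFA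
          exact Finset.disjoint_left.1 hST ((hA F hFA).1 hx) ((hD F hFD).1 hx)
        have bc1 : 0 ≤ Ex l (fun B => (ins A B * hit a.1 φ B) * (ins D B * hit a.1 ψ B)) ∧
            Ex l (fun B => (ins A B * hit a.1 φ B) * (ins D B * hit a.1 ψ B)) ≤ P * R := by
          have e : (fun B => (ins A B * hit a.1 φ B) * (ins D B * hit a.1 ψ B))
              = (fun B => ins (A ∪ D) B * (hit a.1 φ B * hit a.1 ψ B)) := by
            funext B
            have : ins (A ∪ D) B = ins A B * ins D B := by
              unfold ins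
              by_cases h1 : A ⊆ B
              · by_cases h2 : D ⊆ B
                · rw [if_pos (Finset.union_subset h1 h2), if_pos h1, if_pos h2, mul_one]
                · rw [if_neg (fun h => h2 (Finset.subset_union_right.trans h)), if_neg h2,
                    mul_zero]
              · rw [if_neg (fun h => h1 (Finset.subset_union_left.trans h)), if_neg h1, zero_mul]
            rw [this]; ring
          rw [e, hP, hR, ← Finset.prod_union hAD]
          apply Ex_ins_le l hl'
          · intro F hF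
            rcases Finset.mem_union.1 hF with h | h
            · exact hAn F h
            · exact hDn F h
          · exact mul_mem r1 r2
        have hf1 : hit a.1 (fun B => ins A B * φ B) = fun B => ins A B * hit a.1 φ B := by
          rw [hit_mul, hit_ins_notMem haA]
        have hg1 : hit a.1 (fun B => ins D B * ψ B) = fun B => ins D B * hit a.1 ψ B := by
          rw [hit_mul, hit_ins_notMem haD]
        set x := Ex l (fun B => ins A B * φ B) with hx
        set y := Ex l (fun B => ins D B * ψ B) with hy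
        set x1 := Ex l (fun B => ins A B * hit a.1 φ B) with hx1
        set y1 := Ex l (fun B => ins D B * hit a.1 ψ B) with hy1
        set c1 := Ex l (fun B => (ins A B * hit a.1 φ B) * (ins D B * hit a.1 ψ B)) with hc1
        have e : Cv (a :: l) (fun B => ins A B * φ B) (fun B => ins D B * ψ B)
            = (1 - a.2) * Cv l (fun B => ins A B * φ B) (fun B => ins D B * ψ B)
            + a.2 * (c1 - x1 * y1) + a.2 * ((1 - a.2) * ((x - x1) * (y - y1))) := by
          unfold Cv
          rw [Ex_cons, Ex_cons, Ex_cons, step_eq_hit, hit_mul, hf1, hg1, step_eq_hit, step_eq_hit,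
            hf1, hg1, Ex_lin, Ex_lin, Ex_lin]
          rw [← hx, ← hy, ← hx1, ← hy1, ← hc1]
          ring
        have hPR : 0 ≤ P * R := mul_nonneg pA pD
        have t1 : |c1 - x1 * y1| ≤ P * R := by
          rw [abs_le]
          have m := mul_le_mul bf1.2 bg1.2 bg1.1 pA
          have m0 := mul_nonneg bf1.1 bg1.1
          constructor <;> linarith [bc1.1, bc1.2]
        have t2 : |(x - x1) * (y - y1)| ≤ P * R := by
          rw [abs_mul]
          have u1 : |x - x1| ≤ P := by
            rw [abs_le]; constructor <;> linarith [bf.1, bf.2, bf1.1, bf1.2]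
          have u2 : |y - y1| ≤ R := by
            rw [abs_le]; constructor <;> linarith [bg.1, bg.2, bg1.1, bg1.2]
          exact mul_le_mul u1 u2 (abs_nonneg _) pA
        have t3 : |(1 - a.2) * ((x - x1) * (y - y1))| ≤ P * R := by
          rw [abs_mul, abs_of_nonneg (sub_nonneg.2 ha1)]
          have := mul_le_mul (by linarith : 1 - a.2 ≤ 1) t2 (abs_nonneg _) zero_le_one
          linarith
        have s : |Cv (a :: l) (fun B => ins A B * φ B) (fun B => ins D B * ψ B)|
            ≤ P * R * (Phi l S T + 2 * a.2) := by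
          rw [e]
          refine (abs_add_le _ _).trans ?_
          have s1 : |(1 - a.2) * Cv l (fun B => ins A B * φ B) (fun B => ins D B * ψ B)
              + a.2 * (c1 - x1 * y1)|
              ≤ (1 - a.2) * |Cv l (fun B => ins A B * φ B) (fun B => ins D B * ψ B)|
                + a.2 * (P * R) := by
            refine (abs_add_le _ _).trans ?_
            rw [abs_mul, abs_mul, abs_of_nonneg ha0, abs_of_nonneg (sub_nonneg.2 ha1)]
            have := mul_le_mul_of_nonneg_left t1 ha0
            linarith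
          have s2 : |a.2 * ((1 - a.2) * ((x - x1) * (y - y1)))| ≤ a.2 * (P * R) := by
            rw [abs_mul, abs_of_nonneg ha0]
            exact mul_le_mul_of_nonneg_left t3 ha0
          have s3 : (1 - a.2) * |Cv l (fun B => ins A B * φ B) (fun B => ins D B * ψ B)|
              ≤ P * R * Phi l S T := by
            have := mul_le_mul (by linarith : 1 - a.2 ≤ 1) h1 (abs_nonneg _) zero_le_one
            linarith
          nlinarith [s1, s2, s3]
        refine s.trans ((mul_le_mul_of_nonneg_left h2 hPR).trans ?_)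
        have q2 : 0 ≤ Phi (a :: l) S T := nP.trans (Phi_mono a l hl S T)
        exact mul_le_mul_of_nonneg_right (mul_le_mul mA mD pD (pA.trans mA)) q2

end Pool.Agent.LawB
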