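import Mathlib

/-!
# LawB: random matchings with exact marginals and weak dependence

`Ex l g` is the expectation of `g B` after the attempts of `l` (most recent attempt first): the
attempt `(F, q)` adds `F` to the current matching `B` with chance `q` if `F` is disjoint from all
members of `B`.
-/

namespace Pool.Agent.LawB

open Finset

variable {V : Type*} [DecidableEq V]

/-- the vertices covered by `B` -/
def cov (B : Finset (Finset V)) : Finset V := B.biUnion id

/-- one attempt -/
noncomputable def step (F : Finset V) (q : ℝ) (g : Finset (Finset V) → ℝ)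
    (B : Finset (Finset V)) : ℝ :=
  if Disjoint F (cov B) then q * g (insert F B) + (1 - q) * g B else g B

/-- expectation after the attempts of the list, most recent first -/
noncomputable def Ex : List (Finset V × ℝ) → (Finset (Finset V) → ℝ) → ℝ
  | [], g => g ∅
  | a :: l, g => Ex l (step a.1 a.2 g)

/-- `f` depends only on the members that meet `S` -/
def Dep (S : Finset V) (f : Finset (Finset V) → ℝ) : Prop :=
  ∀ B B' : Finset (Finset V), (∀ F, ¬ Disjoint F S → (F ∈ B ↔ F ∈ B')) → f B = f B'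

/-- indicator of `A ⊆ B` -/
noncomputable def ins (A : Finset (Finset V)) (B : Finset (Finset V)) : ℝ :=
  if A ⊆ B then 1 else 0

/-- the sum of the chances of the attempts at `F` -/
noncomputable def pl : List (Finset V × ℝ) → Finset V → ℝ
  | [], _ => 0
  | a :: l, F => pl l F + if a.1 = F then a.2 else 0

/-- all chances lie between 0 and 1 -/
def Good (l : List (Finset V × ℝ)) : Prop := ∀ a ∈ l, 0 ≤ a.2 ∧ a.2 ≤ 1

/-- the bound for the dependence of the vertices `x`, `y` -/
noncomputable def kap : List (Finset V × ℝ) → V → V → ℝ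
  | [], _, _ => 0
  | a :: l, x, y =>
      kap l x y
      + (if x ∈ a.1 ∧ y ∉ a.1 then a.2 * ∑ x' ∈ a.1, kap l x' y else 0)
      + (if y ∈ a.1 ∧ x ∉ a.1 then a.2 * ∑ y' ∈ a.1, kap l x y' else 0)
      + (if x ∈ a.1 ∧ y ∈ a.1 then 2 * a.2 else 0)

/-- indicator of: no vertex of `S` is covered -/
noncomputable def ali (S : Finset V) (B : Finset (Finset V)) : ℝ :=
  if Disjoint S (cov B) then 1 else 0

@[simp] lemma cov_insert (F : Finset V) (B : Finset (Finset V)) :
    cov (insert F B) = F ∪ cov B := by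
  unfold cov; rw [Finset.biUnion_insert]; rfl

@[simp] lemma cov_empty : cov (∅ : Finset (Finset V)) = ∅ := by
  unfold cov; simp

@[simp] lemma Ex_nil (g : Finset (Finset V) → ℝ) : Ex [] g = g ∅ := rfl

@[simp] lemma Ex_cons (a : Finset V × ℝ) (l : List (Finset V × ℝ))
    (g : Finset (Finset V) → ℝ) : Ex (a :: l) g = Ex l (step a.1 a.2 g) := rfl

lemma Ex_lin (l : List (Finset V × ℝ)) (r s : ℝ) (f g : Finset (Finset V) → ℝ) :
    Ex l (fun B => r * f B + s * g B) = r * Ex l f + s * Ex l g := by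
  induction l generalizing f g with
  | nil => simp
  | cons a l ih =>
    rw [Ex_cons, Ex_cons, Ex_cons, ← ih]
    congr 1
    funext B
    unfold step
    split_ifs <;> ring

lemma Ex_sub (l : List (Finset V × ℝ)) (s : ℝ) (f g : Finset (Finset V) → ℝ) :
    Ex l (fun B => f B - s * g B) = Ex l f - s * Ex l g := by
  have h := Ex_lin l 1 (-s) f g
  have e : (fun B => f B - s * g B) = (fun B => 1 * f B + (-s) * g B) := by
    funext B; ring
  rw [e, h]; ring

lemma Ex_const (l : List (Finset V × ℝ)) (r : ℝ) : Ex l (fun _ => r) = r := by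
  induction l with
  | nil => simp
  | cons a l ih =>
    rw [Ex_cons]
    have e : step a.1 a.2 (fun _ => r) = (fun _ => r) := by
      funext B
      unfold step
      split_ifs <;> ring
    rw [e, ih]

lemma step_mono (F : Finset V) (q : ℝ) (hq : 0 ≤ q ∧ q ≤ 1) (f g : Finset (Finset V) → ℝ)
    (h : ∀ B, f B ≤ g B) : ∀ B, step F q f B ≤ step F q g B := by
  intro B
  unfold step
  split_ifs
  · have h1 := mul_le_mul_of_nonneg_left (h (insert F B)) hq.1
    have h2 := mul_le_mul_of_nonneg_left (h B) (sub_nonneg.2 hq.2)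
    linarith
  · exact h B

lemma Ex_mono (l : List (Finset V × ℝ)) (hl : Good l) (f g : Finset (Finset V) → ℝ)
    (h : ∀ B, f B ≤ g B) : Ex l f ≤ Ex l g := by
  induction l generalizing f g with
  | nil => simpa using h ∅
  | cons a l ih =>
    rw [Ex_cons, Ex_cons]
    exact ih (fun b hb => hl b (List.mem_cons_of_mem _ hb)) _ _
      (step_mono _ _ (hl a List.mem_cons_self) _ _ h)

lemma Ex_nonneg (l : List (Finset V × ℝ)) (hl : Good l) (f : Finset (Finset V) → ℝ)
    (h : ∀ B, 0 ≤ f B) : 0 ≤ Ex l f := by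
  have := Ex_mono l hl (fun _ => 0) f h
  rwa [Ex_const] at this

lemma Ex_le_one (l : List (Finset V × ℝ)) (hl : Good l) (f : Finset (Finset V) → ℝ)
    (h : ∀ B, f B ≤ 1) : Ex l f ≤ 1 := by
  have := Ex_mono l hl f (fun _ => 1) h
  rwa [Ex_const] at this

lemma kap_nonneg (l : List (Finset V × ℝ)) (hl : Good l) : ∀ x y, 0 ≤ kap l x y := by
  induction l with
  | nil => intro x y; simp [kap]
  | cons a l ih =>
    intro x y
    have ih' := ih (fun b hb => hl b (List.mem_cons_of_mem _ hb))
    have ha := (hl a List.mem_cons_self).1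
    unfold kap
    have h1 : 0 ≤ (if x ∈ a.1 ∧ y ∉ a.1 then a.2 * ∑ x' ∈ a.1, kap l x' y else 0) := by
      split_ifs
      · exact mul_nonneg ha (Finset.sum_nonneg fun _ _ => ih' _ _)
      · exact le_rfl
    have h2 : 0 ≤ (if y ∈ a.1 ∧ x ∉ a.1 then a.2 * ∑ y' ∈ a.1, kap l x y' else 0) := by
      split_ifs
      · exact mul_nonneg ha (Finset.sum_nonneg fun _ _ => ih' _ _)
      · exact le_rfl
    have h3 : 0 ≤ (if x ∈ a.1 ∧ y ∈ a.1 then 2 * a.2 else 0) := by
      split_ifs
      · linarith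
      · exact le_rfl
    have h0 := ih' x y
    linarith

lemma kap_symm (l : List (Finset V × ℝ)) : ∀ x y, kap l x y = kap l y x := by
  induction l with
  | nil => intro x y; simp [kap]
  | cons a l ih =>
    intro x y
    unfold kap
    have e1 : ∑ x' ∈ a.1, kap l x' y = ∑ x' ∈ a.1, kap l y x' :=
      Finset.sum_congr rfl fun _ _ => ih _ _
    have e2 : ∑ y' ∈ a.1, kap l x y' = ∑ y' ∈ a.1, kap l y' x :=
      Finset.sum_congr rfl fun _ _ => ih _ _
    rw [e1, e2, ih x y]
    have e3 : (x ∈ a.1 ∧ y ∈ a.1) ↔ (y ∈ a.1 ∧ x ∈ a.1) := and_comm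
    simp only [e3]
    ring

lemma kap_le_cons (a : Finset V × ℝ) (l : List (Finset V × ℝ)) (hl : Good (a :: l)) (x y : V) :
    kap l x y ≤ kap (a :: l) x y := by
  have hl' : Good l := fun b hb => hl b (List.mem_cons_of_mem _ hb)
  have ha := (hl a List.mem_cons_self).1
  conv_rhs => unfold kap
  have h1 : 0 ≤ (if x ∈ a.1 ∧ y ∉ a.1 then a.2 * ∑ x' ∈ a.1, kap l x' y else 0) := by
    split_ifs
    · exact mul_nonneg ha (Finset.sum_nonneg fun _ _ => kap_nonneg l hl' _ _)
    · exact le_rfl
  have h2 : 0 ≤ (if y ∈ a.1 ∧ x ∉ a.1 then a.2 * ∑ y' ∈ a.1, kap l x y' else 0) := by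
    split_ifs
    · exact mul_nonneg ha (Finset.sum_nonneg fun _ _ => kap_nonneg l hl' _ _)
    · exact le_rfl
  have h3 : 0 ≤ (if x ∈ a.1 ∧ y ∈ a.1 then 2 * a.2 else 0) := by
    split_ifs
    · linarith
    · exact le_rfl
  linarith

lemma dep_of_cov {S : Finset V} {f : Finset (Finset V) → ℝ}
    (h : ∀ B B', cov B ∩ S = cov B' ∩ S → f B = f B') : Dep S f := by
  intro B B' hB
  apply h
  have key : ∀ C C' : Finset (Finset V), (∀ F, ¬ Disjoint F S → (F ∈ C ↔ F ∈ C')) →
      cov C ∩ S ⊆ cov C' ∩ S := by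
    intro C C' hC x hx
    obtain ⟨h1, h2⟩ := Finset.mem_inter.1 hx
    obtain ⟨F, hF, hxF⟩ := Finset.mem_biUnion.1 h1
    have hxF' : x ∈ F := hxF
    have hd : ¬ Disjoint F S := fun h' => Finset.disjoint_left.1 h' hxF' h2
    exact Finset.mem_inter.2 ⟨Finset.mem_biUnion.2 ⟨F, (hC F hd).1 hF, hxF⟩, h2⟩
  exact Finset.Subset.antisymm (key B B' hB) (key B' B fun F hF => (hB F hF).symm)

lemma pl_nonneg (l : List (Finset V × ℝ)) (hl : Good l) (F : Finset V) : 0 ≤ pl l F := by
  induction l with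
  | nil => exact le_rfl
  | cons a l ih =>
    unfold pl
    have h1 := ih (fun b hb => hl b (List.mem_cons_of_mem _ hb))
    have h2 := (hl a List.mem_cons_self).1
    split_ifs <;> linarith

lemma pl_le_cons (a : Finset V × ℝ) (l : List (Finset V × ℝ)) (hl : Good (a :: l))
    (F : Finset V) : pl l F ≤ pl (a :: l) F := by
  have h2 := (hl a List.mem_cons_self).1
  conv_rhs => unfold pl
  split_ifs <;> linarith

lemma prod_pl_nonneg (l : List (Finset V × ℝ)) (hl : Good l) (A : Finset (Finset V)) :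
    0 ≤ ∏ F ∈ A, pl l F := Finset.prod_nonneg fun F _ => pl_nonneg l hl F

lemma prod_pl_mono (a : Finset V × ℝ) (l : List (Finset V × ℝ)) (hl : Good (a :: l))
    (A : Finset (Finset V)) : ∏ F ∈ A, pl l F ≤ ∏ F ∈ A, pl (a :: l) F :=
  Finset.prod_le_prod
    (fun F _ => pl_nonneg l (fun b hb => hl b (List.mem_cons_of_mem _ hb)) F)
    (fun F _ => pl_le_cons a l hl F)

lemma prod_pl_mem (a : Finset V × ℝ) (l : List (Finset V × ℝ)) (A : Finset (Finset V))
    (h : a.1 ∈ A) : ∏ F ∈ A, pl (a :: l) F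
      = (∏ F ∈ A, pl l F) + a.2 * ∏ F ∈ A.erase a.1, pl l F := by
  rw [← Finset.mul_prod_erase A (fun F => pl (a :: l) F) h,
    ← Finset.mul_prod_erase A (fun F => pl l F) h]
  have e : ∏ F ∈ A.erase a.1, pl (a :: l) F = ∏ F ∈ A.erase a.1, pl l F := by
    apply Finset.prod_congr rfl
    intro F hF
    conv_lhs => unfold pl
    rw [if_neg (fun e => (Finset.mem_erase.1 hF).1 e.symm), add_zero]
  rw [e]
  have e2 : pl (a :: l) a.1 = pl l a.1 + a.2 := by
    conv_lhs => unfold pl
    rw [if_pos rfl]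
  rw [e2]
  ring

end Pool.Agent.LawB
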