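import Pool.Agent.LawB.Defs

/-!
# LawB: the dependence bound `kap` is small
-/

namespace Pool.Agent.LawB

open Finset

variable {V : Type*} [DecidableEq V]

/-- number of attempts at `x` -/
noncomputable def cnt (x : V) (l : List (Finset V × ℝ)) : ℕ := l.countP (fun a => x ∈ a.1)

lemma cnt_cons (x : V) (a : Finset V × ℝ) (l : List (Finset V × ℝ)) :
    cnt x (a :: l) = cnt x l + (if x ∈ a.1 then 1 else 0) := by
  unfold cnt
  rw [List.countP_cons]
  simp only [decide_eq_true_eq]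

/-- one round -/
theorem kap_round (k N : ℕ) (qb A : ℝ) (hqb : 0 ≤ qb) (hqb1 : qb ≤ 1) (hA : 0 ≤ A)
    (hN : (N : ℝ) * (qb * k) ≤ 1 / 2)
    (l₀ : List (Finset V × ℝ)) (hl₀ : Good l₀) (h₀ : ∀ x y, x ≠ y → kap l₀ x y ≤ A)
    (u : List (Finset V × ℝ)) (hu : ∀ a ∈ u, 0 ≤ a.2 ∧ a.2 ≤ qb) (hcard : ∀ a ∈ u, a.1.card ≤ k)
    (hlin : (u.map Prod.fst).Pairwise
      (fun F G => ∀ x y, x ≠ y → ¬ (x ∈ F ∧ y ∈ F ∧ x ∈ G ∧ y ∈ G)))
    (hdeg : ∀ x, 2 * cnt x u ≤ N) :
    ∀ x y, x ≠ y → kap (u ++ l₀) x y ≤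
      A + ((cnt x u : ℝ) + cnt y u) * (qb * (k * (2 * A + 4 * qb)))
        + (if ∃ a ∈ u, x ∈ a.1 ∧ y ∈ a.1 then 2 * qb else 0) := by
  induction u with
  | nil =>
    intro x y hxy
    have := h₀ x y hxy
    simpa [cnt] using this
  | cons a u ih =>
    have hu' : ∀ b ∈ u, 0 ≤ b.2 ∧ b.2 ≤ qb := fun b hb => hu b (List.mem_cons_of_mem _ hb)
    have hcard' : ∀ b ∈ u, b.1.card ≤ k := fun b hb => hcard b (List.mem_cons_of_mem _ hb)
    rw [List.map_cons, List.pairwise_cons] at hlin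
    obtain ⟨hlin1, hlin2⟩ := hlin
    have hdeg' : ∀ x, 2 * cnt x u ≤ N := by
      intro x
      have h1 := hdeg x
      rw [cnt_cons] at h1
      omega
    have ih' := ih hu' hcard' hlin2 hdeg'
    obtain ⟨ha0, ha1⟩ := hu a List.mem_cons_self
    have hgood : Good (u ++ l₀) := by
      intro b hb
      rcases List.mem_append.1 hb with h | h
      · exact ⟨(hu' b h).1, (hu' b h).2.trans hqb1⟩
      · exact hl₀ b h
    set B := 2 * A + 4 * qb with hB
    have hB0 : 0 ≤ B := by positivity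
    -- every value so far is at most `B`
    have hall : ∀ x y, x ≠ y → kap (u ++ l₀) x y ≤ B := by
      intro x y hxy
      refine (ih' x y hxy).trans ?_
      have c1 : (cnt x u : ℝ) + cnt y u ≤ N := by
        have h1 := hdeg' x
        have h2 := hdeg' y
        have : cnt x u + cnt y u ≤ N := by omega
        exact_mod_cast this
      have c2 : ((cnt x u : ℝ) + cnt y u) * (qb * (k * B)) ≤ 1 / 2 * B := by
        have h1 : ((cnt x u : ℝ) + cnt y u) * (qb * (k * B)) ≤ N * (qb * (k * B)) :=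
          mul_le_mul_of_nonneg_right c1 (by positivity)
        have h2 : (N : ℝ) * (qb * (k * B)) = (N * (qb * k)) * B := by ring
        have h3 := mul_le_mul_of_nonneg_right hN hB0
        linarith
      have c3 : (if ∃ a ∈ u, x ∈ a.1 ∧ y ∈ a.1 then 2 * qb else 0) ≤ 2 * qb := by
        split_ifs
        · exact le_rfl
        · positivity
      linarith
    intro x y hxy
    have hxy' := ih' x y hxy
    rw [List.cons_append]
    have hsum : ∀ z w, z ∈ a.1 → w ∉ a.1 →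
        a.2 * ∑ x' ∈ a.1, kap (u ++ l₀) x' w ≤ qb * (k * B) := by
      intro z w _ hw
      have h1 : ∑ x' ∈ a.1, kap (u ++ l₀) x' w ≤ k * B := by
        have h2 : ∑ x' ∈ a.1, kap (u ++ l₀) x' w ≤ ∑ _x' ∈ a.1, B :=
          Finset.sum_le_sum fun x' hx' => hall x' w (fun e => hw (e ▸ hx'))
        rw [Finset.sum_const, nsmul_eq_mul] at h2
        have h3 : (a.1.card : ℝ) * B ≤ k * B :=
          mul_le_mul_of_nonneg_right (by exact_mod_cast hcard a List.mem_cons_self) hB0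
        exact h2.trans h3
      have h0 : 0 ≤ ∑ x' ∈ a.1, kap (u ++ l₀) x' w :=
        Finset.sum_nonneg fun _ _ => kap_nonneg _ hgood _ _
      exact mul_le_mul ha1 h1 h0 hqb
    have hkB : 0 ≤ qb * (k * B) := by positivity
    have hexc : (∃ b ∈ u, x ∈ b.1 ∧ y ∈ b.1) → (∃ b ∈ a :: u, x ∈ b.1 ∧ y ∈ b.1) := by
      rintro ⟨b, hb, h⟩
      exact ⟨b, List.mem_cons_of_mem _ hb, h⟩
    have hif : (if ∃ b ∈ u, x ∈ b.1 ∧ y ∈ b.1 then 2 * qb else 0)
        ≤ (if ∃ b ∈ a :: u, x ∈ b.1 ∧ y ∈ b.1 then 2 * qb else 0) := by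
      by_cases h : ∃ b ∈ u, x ∈ b.1 ∧ y ∈ b.1
      · rw [if_pos h, if_pos (hexc h)]
      · rw [if_neg h]
        split_ifs
        · positivity
        · exact le_rfl
    unfold kap
    by_cases hx : x ∈ a.1
    · by_cases hy : y ∈ a.1
      · -- both
        rw [if_neg (fun h => h.2 hy), if_neg (fun h => h.2 hx), if_pos ⟨hx, hy⟩]
        have hno : ¬ ∃ b ∈ u, x ∈ b.1 ∧ y ∈ b.1 := by
          rintro ⟨b, hb, hb1, hb2⟩
          exact hlin1 b.1 (List.mem_map_of_mem hb) x y hxy ⟨hx, hy, hb1, hb2⟩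
        rw [if_neg hno] at hxy'
        rw [if_pos ⟨a, List.mem_cons_self, hx, hy⟩, cnt_cons, cnt_cons, if_pos hx, if_pos hy]
        push_cast
        have : (((cnt x u : ℝ) + 1) + ((cnt y u : ℝ) + 1)) * (qb * (k * B))
            = ((cnt x u : ℝ) + cnt y u) * (qb * (k * B)) + 2 * (qb * (k * B)) := by ring
        linarith
      · rw [if_pos ⟨hx, hy⟩, if_neg (fun h => hy h.1), if_neg (fun h => hy h.2), cnt_cons,
          cnt_cons, if_pos hx, if_neg hy]
        push_cast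
        have h1 := hsum x y hx hy
        have : (((cnt x u : ℝ) + 1) + ((cnt y u : ℝ) + 0)) * (qb * (k * B))
            = ((cnt x u : ℝ) + cnt y u) * (qb * (k * B)) + (qb * (k * B)) := by ring
        linarith
    · by_cases hy : y ∈ a.1
      · rw [if_neg (fun h => hx h.1), if_pos ⟨hy, hx⟩, if_neg (fun h => hx h.1), cnt_cons,
          cnt_cons, if_neg hx, if_pos hy]
        push_cast
        have h1 := hsum y x hy hx
        have e : ∑ y' ∈ a.1, kap (u ++ l₀) x y' = ∑ y' ∈ a.1, kap (u ++ l₀) y' x :=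
          Finset.sum_congr rfl fun _ _ => kap_symm _ _ _
        rw [e]
        have : (((cnt x u : ℝ) + 0) + ((cnt y u : ℝ) + 1)) * (qb * (k * B))
            = ((cnt x u : ℝ) + cnt y u) * (qb * (k * B)) + (qb * (k * B)) := by ring
        linarith
      · rw [if_neg (fun h => hx h.1), if_neg (fun h => hy h.1), if_neg (fun h => hx h.1),
          cnt_cons, cnt_cons, if_neg hx, if_neg hy]
        push_cast
        have : (((cnt x u : ℝ) + 0) + ((cnt y u : ℝ) + 0)) * (qb * (k * B))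
            = ((cnt x u : ℝ) + cnt y u) * (qb * (k * B)) := by ring
        linarith

/-- one round, in the form used -/
theorem kap_round' (k N : ℕ) (qb A : ℝ) (hqb : 0 ≤ qb) (hqb1 : qb ≤ 1) (hA : 0 ≤ A)
    (hN : (N : ℝ) * (qb * k) ≤ 1 / 4)
    (l₀ : List (Finset V × ℝ)) (hl₀ : Good l₀) (h₀ : ∀ x y, x ≠ y → kap l₀ x y ≤ A)
    (u : List (Finset V × ℝ)) (hu : ∀ a ∈ u, 0 ≤ a.2 ∧ a.2 ≤ qb) (hcard : ∀ a ∈ u, a.1.card ≤ k)
    (hlin : (u.map Prod.fst).Pairwise
      (fun F G => ∀ x y, x ≠ y → ¬ (x ∈ F ∧ y ∈ F ∧ x ∈ G ∧ y ∈ G)))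
    (hdeg : ∀ x, 2 * cnt x u ≤ N) :
    ∀ x y, x ≠ y → kap (u ++ l₀) x y ≤ 3 / 2 * A + 3 * qb := by
  intro x y hxy
  have h := kap_round k N qb A hqb hqb1 hA (by linarith) l₀ hl₀ h₀ u hu hcard hlin hdeg x y hxy
  have c1 : (cnt x u : ℝ) + cnt y u ≤ N := by
    have h1 := hdeg x
    have h2 := hdeg y
    have : cnt x u + cnt y u ≤ N := by omega
    exact_mod_cast this
  have hB0 : 0 ≤ 2 * A + 4 * qb := by positivity
  have c2 : ((cnt x u : ℝ) + cnt y u) * (qb * (k * (2 * A + 4 * qb))) ≤ 1 / 4 * (2 * A + 4 * qb) := by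
    have h1 : ((cnt x u : ℝ) + cnt y u) * (qb * (k * (2 * A + 4 * qb)))
        ≤ N * (qb * (k * (2 * A + 4 * qb))) :=
      mul_le_mul_of_nonneg_right c1 (by positivity)
    have h2 : (N : ℝ) * (qb * (k * (2 * A + 4 * qb))) = (N * (qb * k)) * (2 * A + 4 * qb) := by
      ring
    have h3 := mul_le_mul_of_nonneg_right hN hB0
    linarith
  have c3 : (if ∃ a ∈ u, x ∈ a.1 ∧ y ∈ a.1 then 2 * qb else 0) ≤ 2 * qb := by
    split_ifs
    · exact le_rfl
    · positivity
  linarith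

end Pool.Agent.LawB
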