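import Pool.Agent.LawB.Cov
import Pool.Agent.LawB.Kap

/-!
# LawB: the chances of the attempts
-/

namespace Pool.Agent.LawB

open Finset

variable {V : Type*} [DecidableEq V]

/-! ### indicators -/

lemma ali_empty (B : Finset (Finset V)) : ali ∅ B = 1 := by
  unfold ali; simp

lemma ali_insert (x : V) (S : Finset V) (B : Finset (Finset V)) :
    ali (insert x S) B = ali {x} B * ali S B := by
  unfold ali
  by_cases hx : x ∈ cov B
  · rw [if_neg, if_neg, zero_mul]
    · simpa using hx
    · rw [Finset.disjoint_insert_left]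
      exact fun h => h.1 hx
  · have h1 : Disjoint {x} (cov B) := by simpa using hx
    rw [if_pos h1, one_mul]
    by_cases hS : Disjoint S (cov B)
    · rw [if_pos hS, if_pos (Finset.disjoint_insert_left.2 ⟨hx, hS⟩)]
    · rw [if_neg hS, if_neg (fun h => hS (Finset.disjoint_insert_left.1 h).2)]

lemma step_ali_of_notMem {F : Finset V} {x : V} (q : ℝ) (h : x ∉ F) :
    step F q (ali {x}) = ali {x} :=
  step_of_hit q (hit_of_disjoint (dep_ali {x}) (Finset.disjoint_singleton_right.2 h))

lemma step_ali_of_mem {F : Finset V} {x : V} (q : ℝ) (h : x ∈ F) :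
    step F q (ali {x}) = fun B => ali {x} B - q * ali F B := by
  funext B
  unfold step
  by_cases hF : Disjoint F (cov B)
  · have h1 : Disjoint {x} (cov B) :=
      Finset.disjoint_of_subset_left (Finset.singleton_subset_iff.2 h) hF
    have h2 : ¬ Disjoint {x} (cov (insert F B)) := by
      rw [cov_insert, Finset.disjoint_singleton_left]
      exact fun h' => h' (Finset.mem_union_left _ h)
    unfold ali
    rw [if_pos hF, if_neg h2, if_pos h1, if_pos hF]
    ring
  · unfold ali
    rw [if_neg hF, if_neg hF]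
    ring

lemma step_ins_ne {F G : Finset V} (q : ℝ) (h : F ≠ G) : step F q (ins {G}) = ins {G} :=
  step_of_hit q (hit_ins_notMem (fun h' => h (Finset.mem_singleton.1 h')))

lemma step_ins_self {F : Finset V} (q : ℝ) (h : F.Nonempty) :
    step F q (ins {F}) = fun B => 1 * ins {F} B + q * ali F B := by
  have h1 := hit_ins_mem (A := {F}) (Finset.mem_singleton_self F) h (fun _ => 1)
  have e : (fun B => ins ({F} : Finset (Finset V)) B * (fun _ => (1 : ℝ)) B) = ins {F} := by
    funext B; simp
  rw [e] at h1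
  rw [step_eq_hit, h1]
  funext B
  have e2 : ins (({F} : Finset (Finset V)).erase F) B = 1 := by
    unfold ins; simp
  have e3 : hit F (fun _ => (1 : ℝ)) B = 1 := by
    unfold hit; split_ifs <;> rfl
  simp only [e2, e3, mul_one, one_mul]
  ring

/-! ### lower bound for the chance that a set is free -/

lemma prod_empty_pl (l : List (Finset V × ℝ)) :
    ∏ F ∈ (∅ : Finset (Finset V)), pl l F = 1 := Finset.prod_empty

lemma ins_empty (B : Finset (Finset V)) : ins ∅ B = 1 := by
  unfold ins; simp

/-- the covariance bound, plain form -/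
theorem Cv_le' (l : List (Finset V × ℝ)) (hl : Good l) (S T : Finset V) (h : Disjoint S T)
    (φ ψ : Finset (Finset V) → ℝ) (hφ : Dep S φ) (hψ : Dep T ψ)
    (hφ1 : ∀ B, 0 ≤ φ B ∧ φ B ≤ 1) (hψ1 : ∀ B, 0 ≤ ψ B ∧ ψ B ≤ 1) :
    |Cv l φ ψ| ≤ Phi l S T := by
  have := Cv_le l hl S T h ∅ ∅ (by simp) (by simp) φ ψ hφ hψ hφ1 hψ1
  simpa [ins_empty] using this

lemma alive_low (l : List (Finset V × ℝ)) (hl : Good l) (ε : ℝ)
    (hk : ∀ x y, x ≠ y → kap l x y ≤ ε) (hf : ∀ x, 1 / 2 ≤ Ex l (ali {x})) (hε : 0 ≤ ε) :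
    ∀ S : Finset V, (1 / 2 : ℝ) ^ S.card - (S.card : ℝ) ^ 2 * ε ≤ Ex l (ali S) := by
  intro S
  induction S using Finset.induction_on with
  | empty =>
    have e : (ali (∅ : Finset V)) = fun _ => (1 : ℝ) := by
      funext B; exact ali_empty B
    rw [e, Ex_const]; simp
  | insert x S hx ih =>
    have e : (ali (insert x S)) = fun B => ali {x} B * ali S B := by
      funext B; exact ali_insert x S B
    have hd : Disjoint ({x} : Finset V) S := Finset.disjoint_singleton_left.2 hx
    have hc := Cv_le' l hl {x} S hd (ali {x}) (ali S) (dep_ali _) (dep_ali _) (ali_mem _)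
      (ali_mem _)
    have hP : Phi l {x} S ≤ (S.card : ℝ) * ε := by
      unfold Phi
      rw [Finset.sum_singleton]
      have : ∑ y ∈ S, kap l x y ≤ ∑ _y ∈ S, ε :=
        Finset.sum_le_sum fun y hy => hk x y (fun e => hx (e ▸ hy))
      rwa [Finset.sum_const, nsmul_eq_mul] at this
    have h1 : Ex l (ali {x}) * Ex l (ali S) - (S.card : ℝ) * ε ≤ Ex l (ali (insert x S)) := by
      rw [e]
      unfold Cv at hc
      have := (abs_le.1 (hc.trans hP)).1
      linarith
    have h0 : 0 ≤ Ex l (ali S) := Ex_nonneg l hl _ fun B => (ali_mem S B).1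
    have h2 : 1 / 2 * Ex l (ali S) ≤ Ex l (ali {x}) * Ex l (ali S) :=
      mul_le_mul_of_nonneg_right (hf x) h0
    rw [Finset.card_insert_of_notMem hx, pow_succ]
    push_cast
    have h3 : 0 ≤ (S.card : ℝ) * ε := by positivity
    have h4 : 0 ≤ (S.card : ℝ) ^ 2 * ε := by positivity
    nlinarith

/-! ### the chances -/

/-- the attempts on the edges of the list (most recent first), each with marginal chance `c` -/
noncomputable def bld (c : ℝ) : List (Finset V) → List (Finset V × ℝ)
  | [] => []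
  | F :: m => (F, c / Ex (bld c m) (ali F)) :: bld c m

lemma bld_append (c : ℝ) (u m : List (Finset V)) :
    ∃ w, bld c (u ++ m) = w ++ bld c m ∧ w.map Prod.fst = u := by
  induction u with
  | nil => exact ⟨[], rfl, rfl⟩
  | cons F u ih =>
    obtain ⟨w, hw, hw'⟩ := ih
    refine ⟨(F, c / Ex (bld c (u ++ m)) (ali F)) :: w, ?_, ?_⟩
    · rw [List.cons_append]
      conv_lhs => unfold bld
      rw [List.cons_append]
      rw [hw]
    · rw [List.map_cons, hw']

/-- the invariant -/
def Inv (c Q : ℝ) (m : List (Finset V)) : Prop :=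
  (∀ a ∈ bld c m, 0 ≤ a.2 ∧ a.2 ≤ Q * c) ∧
  (∀ x, Ex (bld c m) (ali {x}) = 1 - c * (m.countP (fun F => x ∈ F) : ℕ)) ∧
  (∀ F, Ex (bld c m) (ins {F}) = c * (m.count F : ℕ))

lemma inv_nil (c Q : ℝ) : Inv c Q ([] : List (Finset V)) := by
  refine ⟨?_, ?_, ?_⟩
  · intro a ha
    simp [bld] at ha
  · intro x
    simp [bld, ali]
  · intro F
    simp [bld, ins]

lemma inv_cons (c Q : ℝ) (hc : 0 < c) (hQ : 0 < Q) (F : Finset V) (hF : F.Nonempty)
    (m : List (Finset V)) (h : Inv c Q m) (hlow : 1 / Q ≤ Ex (bld c m) (ali F)) :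
    Inv c Q (F :: m) := by
  obtain ⟨h1, h2, h3⟩ := h
  have hpos : 0 < Ex (bld c m) (ali F) := lt_of_lt_of_le (by positivity) hlow
  have hq : c / Ex (bld c m) (ali F) * Ex (bld c m) (ali F) = c := div_mul_cancel₀ _ hpos.ne'
  refine ⟨?_, ?_, ?_⟩
  · intro a ha
    unfold bld at ha
    rcases List.mem_cons.1 ha with rfl | ha
    · refine ⟨by positivity, ?_⟩
      change c / Ex (bld c m) (ali F) ≤ Q * c
      rw [div_le_iff₀ hpos]
      have := mul_le_mul_of_nonneg_left hlow (by positivity : 0 ≤ Q * c)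
      have e : Q * c * (1 / Q) = c := by field_simp
      linarith
    · exact h1 a ha
  · intro x
    unfold bld
    rw [Ex_cons, List.countP_cons]
    by_cases hx : x ∈ F
    · rw [step_ali_of_mem _ hx, Ex_sub, h2 x, hq]
      simp only [hx, decide_true, if_true]
      push_cast
      ring
    · rw [step_ali_of_notMem _ hx, h2 x]
      simp [hx]
  · intro G
    unfold bld
    rw [Ex_cons, List.count_cons]
    by_cases hG : F = G
    · subst hG
      rw [step_ins_self _ hF, Ex_lin, h3 F, hq]
      simp only [beq_self_eq_true, if_true]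
      push_cast
      ring
    · rw [step_ins_ne _ hG, h3 G]
      simp [hG]

end Pool.Agent.LawB
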