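import Pool.Agent.LawB.Law

/-!
# LawB: the law of the random matching
-/

namespace Pool.Agent.LawB

open Finset

/-- number of rounds -/
def Tn (k : ℕ) : ℕ := 4 * k * 2 ^ (k + 1)

/-- the constant -/
noncomputable def CB (k : ℕ) : ℝ := 3 * 2 ^ (k + 1) * (3 / 2) ^ Tn k

/-- the threshold -/
noncomputable def NB (k : ℕ) : ℕ := ⌈CB k * (k : ℝ) ^ 2 * 2 ^ (k + 1)⌉₊ + 1

variable {V : Type*} [DecidableEq V]

lemma CB_pos (k : ℕ) : 0 < CB k := by unfold CB; positivity

lemma two_pow_le_CB (k : ℕ) : (2 : ℝ) ^ (k + 1) ≤ CB k := by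
  unfold CB
  have h : (1 : ℝ) ≤ (3 / 2) ^ Tn k := one_le_pow₀ (by norm_num)
  have h2 : (0 : ℝ) < 2 ^ (k + 1) := by positivity
  nlinarith

lemma one_le_CB (k : ℕ) : 1 ≤ CB k :=
  (one_le_pow₀ (by norm_num : (1 : ℝ) ≤ 2)).trans (two_pow_le_CB k)

/-- the bound after `r` rounds -/
noncomputable def Ar (qb : ℝ) (r : ℕ) : ℝ := 3 * qb * r * (3 / 2) ^ r

lemma Ar_nonneg {qb : ℝ} (h : 0 ≤ qb) (r : ℕ) : 0 ≤ Ar qb r := by unfold Ar; positivity

lemma Ar_succ {qb : ℝ} (h : 0 ≤ qb) (r : ℕ) : 3 / 2 * Ar qb r + 3 * qb ≤ Ar qb (r + 1) := by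
  unfold Ar
  have h1 : (1 : ℝ) ≤ (3 / 2) ^ r := one_le_pow₀ (by norm_num)
  rw [pow_succ]
  push_cast
  have h2 : 0 ≤ qb * ((3 / 2 : ℝ) ^ r - 1) := mul_nonneg h (sub_nonneg.2 h1)
  nlinarith [h2, h]

lemma Ar_mono {qb : ℝ} (h : 0 ≤ qb) {r s : ℕ} (hrs : r ≤ s) : Ar qb r ≤ Ar qb s := by
  unfold Ar
  have h1 : (3 / 2 : ℝ) ^ r ≤ (3 / 2) ^ s := pow_le_pow_right₀ (by norm_num) hrs
  have h2 : (r : ℝ) ≤ s := by exact_mod_cast hrs
  exact mul_le_mul (mul_le_mul_of_nonneg_left h2 (by positivity)) h1 (by positivity)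
    (by positivity)

lemma countP_flatten_replicate (L : List (Finset V)) (x : V) (r : ℕ) :
    ((List.replicate r L).flatten).countP (fun F => decide (x ∈ F))
      = r * L.countP (fun F => decide (x ∈ F)) := by
  induction r with
  | zero => simp
  | succ r ih => rw [List.replicate_succ, List.flatten_cons, List.countP_append, ih]; ring

lemma count_flatten_replicate (L : List (Finset V)) (F : Finset V) (r : ℕ) :
    ((List.replicate r L).flatten).count F = r * L.count F := by
  induction r with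
  | zero => simp
  | succ r ih => rw [List.replicate_succ, List.flatten_cons, List.count_append, ih]; ring

lemma cnt_eq (x : V) (l : List (Finset V × ℝ)) :
    cnt x l = (l.map Prod.fst).countP (fun F => decide (x ∈ F)) := by
  unfold cnt
  rw [List.countP_map]
  rfl

/-- all rounds -/
theorem rounds (k N : ℕ) (hk : 0 < k) (hN : NB k ≤ N) (L : List (Finset V))
    (hL : ∀ F ∈ L, F.Nonempty ∧ F.card ≤ k)
    (hlin : L.Pairwise (fun F G => ∀ x y, x ≠ y → ¬ (x ∈ F ∧ y ∈ F ∧ x ∈ G ∧ y ∈ G)))
    (hdeg : ∀ x, 2 * L.countP (fun F => decide (x ∈ F)) ≤ N) (r : ℕ) (hr : r ≤ Tn k) :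
    Inv (1 / (N * Tn k : ℝ)) (2 ^ (k + 1)) (List.replicate r L).flatten ∧
    ∀ x y, x ≠ y → kap (bld (1 / (N * Tn k : ℝ)) (List.replicate r L).flatten) x y
      ≤ Ar (2 ^ (k + 1) * (1 / (N * Tn k : ℝ))) r := by
  set T := Tn k with hT
  have hT0 : 0 < T := by rw [hT]; unfold Tn; positivity
  have hN1 : 1 ≤ N := by unfold NB at hN; omega
  have hNr : (0 : ℝ) < N := by exact_mod_cast hN1
  have hTr : (0 : ℝ) < T := by exact_mod_cast hT0
  have hkr : (0 : ℝ) < k := by exact_mod_cast hk
  set c : ℝ := 1 / (N * T : ℝ) with hc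
  have hc0 : 0 < c := by positivity
  set Q : ℝ := 2 ^ (k + 1) with hQ
  have hQ0 : 0 < Q := by positivity
  set qb := Q * c with hqb
  have hqb0 : 0 ≤ qb := by positivity
  have hTQ : (T : ℝ) = 4 * k * Q := by rw [hT, hQ]; unfold Tn; push_cast; ring
  have hNq : (N : ℝ) * (qb * k) ≤ 1 / 4 := by
    rw [hqb, hc, hTQ]
    have : (N : ℝ) * (Q * (1 / (N * (4 * k * Q))) * k) = 1 / 4 := by field_simp
    rw [this]
  have hqb1 : qb ≤ 1 := by
    have h1 : (1 : ℝ) ≤ N := by exact_mod_cast hN1
    have h2 : (1 : ℝ) ≤ k := by exact_mod_cast hk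
    have h3 : qb * k ≤ N * (qb * k) := by nlinarith [mul_nonneg hqb0 hkr.le]
    nlinarith
  -- the uniform bound
  have hAT : Ar qb T = CB k / N := by
    unfold Ar CB
    rw [hqb, hc, ← hT, ← hQ]
    field_simp
  have hNB : CB k * (k : ℝ) ^ 2 * Q ≤ N := by
    have h1 := Nat.le_ceil (CB k * (k : ℝ) ^ 2 * 2 ^ (k + 1))
    have h2 : (⌈CB k * (k : ℝ) ^ 2 * 2 ^ (k + 1)⌉₊ : ℝ) ≤ N := by
      have : ⌈CB k * (k : ℝ) ^ 2 * 2 ^ (k + 1)⌉₊ ≤ N := by unfold NB at hN; omega
      exact_mod_cast this
    exact h1.trans h2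
  -- one more attempt
  have one : ∀ (r : ℕ) (_ : r < T) (u : List (Finset V)) (_ : u <:+ L)
      (_ : Inv c Q (List.replicate r L).flatten)
      (_ : ∀ x y, x ≠ y → kap (bld c (List.replicate r L).flatten) x y ≤ Ar qb r)
      (_ : Inv c Q (u ++ (List.replicate r L).flatten)),
      (∀ x y, x ≠ y → kap (bld c (u ++ (List.replicate r L).flatten)) x y ≤ Ar qb (r + 1)) ∧
      ∀ F : Finset V, F.card ≤ k →
        1 / Q ≤ Ex (bld c (u ++ (List.replicate r L).flatten)) (ali F) := by
    intro r hr u hu h1 h2 h3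
    obtain ⟨w, hw, hwu⟩ := bld_append c u (List.replicate r L).flatten
    have hgood₀ : Good (bld c (List.replicate r L).flatten) := fun a ha =>
      ⟨(h1.1 a ha).1, (h1.1 a ha).2.trans hqb1⟩
    have hgood : Good (bld c (u ++ (List.replicate r L).flatten)) := fun a ha =>
      ⟨(h3.1 a ha).1, (h3.1 a ha).2.trans hqb1⟩
    have hcard : ∀ a ∈ w, a.1.card ≤ k := by
      intro a ha
      have : a.1 ∈ u := by rw [← hwu]; exact List.mem_map_of_mem ha
      exact (hL _ (hu.subset this)).2
    have hsub : u.Sublist L := hu.sublist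
    have hkap : ∀ x y, x ≠ y →
        kap (bld c (u ++ (List.replicate r L).flatten)) x y ≤ Ar qb (r + 1) := by
      intro x y hxy
      rw [hw]
      refine (kap_round' k N qb (Ar qb r) hqb0 hqb1 (Ar_nonneg hqb0 r) hNq _ hgood₀ h2 w ?_
        hcard ?_ ?_ x y hxy).trans (Ar_succ hqb0 r)
      · intro a ha
        apply h3.1
        rw [hw]
        exact List.mem_append_left _ ha
      · rw [hwu]
        exact hlin.sublist hsub
      · intro z
        rw [cnt_eq, hwu]
        have := hsub.countP_le (p := fun F => decide (z ∈ F))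
        have := hdeg z
        omega
    refine ⟨hkap, ?_⟩
    have hε : Ar qb (r + 1) ≤ CB k / N := by
      rw [← hAT]
      exact Ar_mono hqb0 (by omega)
    have hfree : ∀ x, 1 / 2 ≤ Ex (bld c (u ++ (List.replicate r L).flatten)) (ali {x}) := by
      intro x
      rw [h3.2.1 x, List.countP_append, countP_flatten_replicate]
      have d1 := hsub.countP_le (p := fun F => decide (x ∈ F))
      have d2 := hdeg x
      set d := L.countP (fun F => decide (x ∈ F)) with hd
      have d3 : 2 * (u.countP (fun F => decide (x ∈ F)) + r * d) ≤ T * N := by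
        calc 2 * (u.countP (fun F => decide (x ∈ F)) + r * d) ≤ 2 * (d + r * d) := by omega
          _ = (r + 1) * (2 * d) := by ring
          _ ≤ T * N := Nat.mul_le_mul (by omega) d2
      have d4 : (2 : ℝ) * ((u.countP (fun F => decide (x ∈ F)) + r * d : ℕ) : ℝ) ≤ T * N := by
        exact_mod_cast d3
      have d5 := mul_le_mul_of_nonneg_left d4 hc0.le
      have d6 : c * (T * N) = 1 := by rw [hc]; field_simp
      linarith
    intro F hF
    have hlow := alive_low _ hgood (CB k / N) (fun x y hxy => (hkap x y hxy).trans hε) hfree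
      (by have := CB_pos k; positivity) F
    refine le_trans ?_ hlow
    have e1 : (1 / 2 : ℝ) ^ k ≤ (1 / 2) ^ F.card :=
      pow_le_pow_of_le_one (by norm_num) (by norm_num) hF
    have e2 : (F.card : ℝ) ^ 2 * (CB k / N) ≤ (k : ℝ) ^ 2 * (CB k / N) := by
      have h1 : (F.card : ℝ) ≤ k := by exact_mod_cast hF
      have h2 : (F.card : ℝ) ^ 2 ≤ (k : ℝ) ^ 2 := pow_le_pow_left₀ (by positivity) h1 2
      have h3 := CB_pos k
      exact mul_le_mul_of_nonneg_right h2 (by positivity)
    have e3 : (k : ℝ) ^ 2 * (CB k / N) ≤ 1 / Q := by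
      rw [le_div_iff₀ hQ0]
      have : (k : ℝ) ^ 2 * (CB k / N) * Q = (CB k * (k : ℝ) ^ 2 * Q) / N := by ring
      rw [this, div_le_one hNr]
      exact hNB
    have e4 : (1 / 2 : ℝ) ^ k = 2 * (1 / Q) := by
      rw [hQ, pow_succ]
      have : (2 : ℝ) ^ k ≠ 0 := by positivity
      rw [one_div, inv_pow]
      field_simp
    linarith
  -- a partially finished round
  have part : ∀ (r : ℕ) (_ : r < T)
      (_ : Inv c Q (List.replicate r L).flatten)
      (_ : ∀ x y, x ≠ y → kap (bld c (List.replicate r L).flatten) x y ≤ Ar qb r)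
      (u : List (Finset V)) (_ : u <:+ L), Inv c Q (u ++ (List.replicate r L).flatten) := by
    intro r hr h1 h2 u
    induction u with
    | nil => intro _; simpa using h1
    | cons F u ih =>
      intro hu
      have hu' : u <:+ L := (List.suffix_cons F u).trans hu
      have h3 := ih hu'
      have hF := hL F (hu.subset List.mem_cons_self)
      rw [List.cons_append]
      exact inv_cons c Q hc0 hQ0 F hF.1 _ h3 ((one r hr u hu' h1 h2 h3).2 F hF.2)
  induction r with
  | zero =>
    refine ⟨by simpa using inv_nil c Q, ?_⟩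
    intro x y _
    simp [bld, kap, Ar]
  | succ r ih =>
    obtain ⟨h1, h2⟩ := ih (by omega)
    have h3 := part r (by omega) h1 h2 L List.suffix_rfl
    rw [List.replicate_succ, List.flatten_cons]
    exact ⟨h3, (one r (by omega) L List.suffix_rfl h1 h2 h3).1⟩

lemma pl_le (l : List (Finset V × ℝ)) (qb : ℝ) (h : ∀ a ∈ l, 0 ≤ a.2 ∧ a.2 ≤ qb)
    (F : Finset V) : pl l F ≤ qb * ((l.map Prod.fst).count F : ℕ) := by
  induction l with
  | nil => simp [pl]
  | cons a l ih =>
    have h1 := ih fun b hb => h b (List.mem_cons_of_mem _ hb)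
    have h2 := (h a List.mem_cons_self).2
    rw [List.map_cons, List.count_cons]
    unfold pl
    by_cases e : a.1 = F
    · simp only [e, if_true, beq_self_eq_true]
      push_cast
      linarith
    · rw [if_neg e]
      have : ¬ (a.1 == F) = true := by simpa using e
      rw [if_neg this]
      simpa using h1

lemma map_fst_bld (c : ℝ) (m : List (Finset V)) : (bld c m).map Prod.fst = m := by
  obtain ⟨w, hw, hw'⟩ := bld_append c m []
  rw [List.append_nil] at hw
  rw [hw, List.map_append, hw']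
  simp [bld]

/-- expectations only see matchings made of the edges of the list -/
lemma Ex_support (l : List (Finset V × ℝ)) (H : Finset (Finset V)) (hH : ∀ a ∈ l, a.1 ∈ H)
    (g : Finset (Finset V) → ℝ)
    (hg : ∀ B : Finset (Finset V), B ⊆ H → (∀ F ∈ B, ∀ G ∈ B, F ≠ G → Disjoint F G) → g B = 0) :
    Ex l g = 0 := by
  induction l generalizing g with
  | nil =>
    rw [Ex_nil]
    exact hg ∅ (Finset.empty_subset _) (by simp)
  | cons a l ih =>
    rw [Ex_cons]
    apply ih (fun b hb => hH b (List.mem_cons_of_mem _ hb))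
    intro B hB hm
    unfold step
    split_ifs with hd
    · rw [hg B hB hm, hg (insert a.1 B)]
      · ring
      · exact Finset.insert_subset (hH a List.mem_cons_self) hB
      · intro F hF G hG hFG
        have key : ∀ G ∈ B, Disjoint a.1 G := by
          intro G hG
          have hGc : G ⊆ cov B := fun x hx => Finset.mem_biUnion.2 ⟨G, hG, hx⟩
          exact Finset.disjoint_of_subset_right hGc hd
        rcases Finset.mem_insert.1 hF with rfl | hF
        · rcases Finset.mem_insert.1 hG with rfl | hG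
          · exact absurd rfl hFG
          · exact key G hG
        · rcases Finset.mem_insert.1 hG with rfl | hG
          · exact (key F hF).symm
          · exact hm F hF G hG hFG
    · exact hg B hB hm

/-- LAW B: a random matching with equal marginals `1/N` and weak dependence -/
theorem lawB (k : ℕ) (hk : 0 < k) (V : Type*) [Fintype V] [DecidableEq V]
    (H : Finset (Finset V)) (N : ℕ) (hN : NB k ≤ N)
    (hcard : ∀ F ∈ H, F.Nonempty ∧ F.card ≤ k)
    (hlin : ∀ F ∈ H, ∀ G ∈ H, F ≠ G → (F ∩ G).card ≤ 1)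
    (hdeg : ∀ x, 2 * (H.filter (fun F => x ∈ F)).card ≤ N) :
    ∃ w : Finset (Finset V) → ℝ, (∀ B, 0 ≤ w B) ∧ ∑ B, w B = 1 ∧
      (∀ B, w B ≠ 0 → B ⊆ H ∧ ∀ F ∈ B, ∀ G ∈ B, F ≠ G → Disjoint F G) ∧
      (∀ F ∈ H, ∑ B, w B * ins {F} B = 1 / N) ∧
      ∀ (S T : Finset V) (_ : Disjoint S T) (A D : Finset (Finset V))
        (_ : ∀ F ∈ A, F ⊆ S ∧ F.Nonempty) (_ : ∀ F ∈ D, F ⊆ T ∧ F.Nonempty)
        (φ ψ : Finset (Finset V) → ℝ) (_ : Dep S φ) (_ : Dep T ψ)
        (_ : ∀ B, 0 ≤ φ B ∧ φ B ≤ 1) (_ : ∀ B, 0 ≤ ψ B ∧ ψ B ≤ 1),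
        |∑ B, w B * ((ins A B * φ B) * (ins D B * ψ B))
          - (∑ B, w B * (ins A B * φ B)) * (∑ B, w B * (ins D B * ψ B))|
        ≤ (CB k / N) ^ (A.card + D.card + 1) * (S.card * T.card) := by
  classical
  set L := H.toList with hL
  have hmem : ∀ F, F ∈ L ↔ F ∈ H := fun F => Finset.mem_toList
  have hnd : L.Nodup := H.nodup_toList
  have hN1 : 1 ≤ N := by unfold NB at hN; omega
  have hNr : (0 : ℝ) < N := by exact_mod_cast hN1
  have hT0 : 0 < Tn k := by unfold Tn; positivity
  have hTr : (0 : ℝ) < Tn k := by exact_mod_cast hT0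
  have hlinL : L.Pairwise (fun F G => ∀ x y, x ≠ y → ¬ (x ∈ F ∧ y ∈ F ∧ x ∈ G ∧ y ∈ G)) := by
    have h1 : L.Pairwise (fun F G => F ≠ G) := hnd
    refine (List.Pairwise.and_mem.1 h1).imp ?_
    rintro F G ⟨hF, hG, hFG⟩ x y hxy ⟨a1, a2, a3, a4⟩
    have h2 := hlin F ((hmem F).1 hF) G ((hmem G).1 hG) hFG
    have h3 : ({x, y} : Finset V) ⊆ F ∩ G := by
      intro z hz
      rcases Finset.mem_insert.1 hz with rfl | hz
      · exact Finset.mem_inter.2 ⟨a1, a3⟩
      · rw [Finset.mem_singleton] at hz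
        subst hz
        exact Finset.mem_inter.2 ⟨a2, a4⟩
    have h4 := Finset.card_le_card h3
    rw [Finset.card_pair hxy] at h4
    omega
  have hcnt : ∀ x, L.countP (fun F => decide (x ∈ F)) = (H.filter (fun F => x ∈ F)).card := by
    intro x
    rw [List.countP_eq_length_filter, ← List.toFinset_card_of_nodup (hnd.filter _)]
    congr 1
    ext F
    simp [hL]
  have hdegL : ∀ x, 2 * L.countP (fun F => decide (x ∈ F)) ≤ N := by
    intro x
    rw [hcnt]
    exact hdeg x
  obtain ⟨hInv, hkap⟩ := rounds k N hk hN L (fun F hF => hcard F ((hmem F).1 hF)) hlinL hdegL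
    (Tn k) le_rfl
  set m := (List.replicate (Tn k) L).flatten with hm
  set c : ℝ := 1 / (N * Tn k : ℝ) with hc
  set l := bld c m with hl
  have hkr : (0 : ℝ) < k := by exact_mod_cast hk
  have hTQ : (Tn k : ℝ) = 4 * k * 2 ^ (k + 1) := by unfold Tn; push_cast; ring
  have hqb1 : 2 ^ (k + 1) * c ≤ 1 := by
    rw [hc, hTQ]
    have h1 : (1 : ℝ) ≤ N := by exact_mod_cast hN1
    have h2 : (1 : ℝ) ≤ k := by exact_mod_cast hk
    rw [mul_one_div, div_le_one (by positivity)]
    have h3 : (0 : ℝ) < 2 ^ (k + 1) := by positivity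
    have h4 : (1 : ℝ) ≤ N * k := by nlinarith
    nlinarith
  have hgood : Good l := fun a ha => ⟨(hInv.1 a ha).1, (hInv.1 a ha).2.trans hqb1⟩
  have hlH : ∀ a ∈ l, a.1 ∈ H := by
    intro a ha
    have h1 : a.1 ∈ l.map Prod.fst := List.mem_map_of_mem ha
    rw [hl, map_fst_bld, hm, List.mem_flatten] at h1
    obtain ⟨M, hM, haM⟩ := h1
    rw [List.eq_of_mem_replicate hM] at haM
    exact (hmem _).1 haM
  -- the weights
  set w : Finset (Finset V) → ℝ := fun B => Ex l (fun B' => if B' = B then 1 else 0) with hw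
  have hsum : ∀ g : Finset (Finset V) → ℝ, ∑ B, w B * g B = Ex l g := by
    intro g
    have key : ∀ s : Finset (Finset (Finset V)),
        ∑ B ∈ s, w B * g B = Ex l (fun B' => ∑ B ∈ s, if B' = B then g B else 0) := by
      intro s
      induction s using Finset.induction_on with
      | empty => simp [Ex_const]
      | insert B s hB ih =>
        rw [Finset.sum_insert hB, ih]
        have e : (fun B' => ∑ B ∈ insert B s, if B' = B then g B else 0)
            = (fun B' => g B * (if B' = B then 1 else 0)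
              + 1 * ∑ B ∈ s, if B' = B then g B else 0) := by
          funext B'
          rw [Finset.sum_insert hB]
          split_ifs <;> ring
        rw [e, Ex_lin]
        ring
    rw [key Finset.univ]
    congr 1
    funext B'
    simp
  have hCB : Ar (2 ^ (k + 1) * c) (Tn k) = CB k / N := by
    unfold Ar CB
    rw [hc]
    field_simp
  have hpl : ∀ F, pl l F ≤ CB k / N := by
    intro F
    have h1 := pl_le l _ hInv.1 F
    have h2 : (l.map Prod.fst).count F ≤ Tn k := by
      rw [hl, map_fst_bld, hm, count_flatten_replicate]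
      have : L.count F ≤ 1 := List.nodup_iff_count_le_one.1 hnd F
      calc Tn k * L.count F ≤ Tn k * 1 := Nat.mul_le_mul_left _ this
        _ = Tn k := mul_one _
    have h3 : ((l.map Prod.fst).count F : ℝ) ≤ Tn k := by exact_mod_cast h2
    have h4 : 2 ^ (k + 1) * c * ((l.map Prod.fst).count F : ℕ) ≤ 2 ^ (k + 1) * c * Tn k :=
      mul_le_mul_of_nonneg_left h3 (by positivity)
    have h5 : 2 ^ (k + 1) * c * Tn k = 2 ^ (k + 1) / N := by
      rw [hc]
      field_simp
    have h6 : (2 : ℝ) ^ (k + 1) / N ≤ CB k / N := by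
      have := two_pow_le_CB k
      gcongr
    linarith
  have hCN : 0 ≤ CB k / N := by have := CB_pos k; positivity
  refine ⟨w, ?_, ?_, ?_, ?_, ?_⟩
  · intro B
    exact Ex_nonneg l hgood _ fun B' => by split_ifs <;> norm_num
  · have := hsum (fun _ => 1)
    simp only [mul_one] at this
    rw [this, Ex_const]
  · intro B hB
    by_contra hcon
    apply hB
    apply Ex_support l H hlH
    intro B' h1 h2
    rw [if_neg]
    rintro rfl
    exact hcon ⟨h1, h2⟩
  · intro F hF
    rw [hsum, hl, hInv.2.2 F, hm, count_flatten_replicate]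
    have : L.count F = 1 := List.count_eq_one_of_mem hnd ((hmem F).2 hF)
    rw [this, hc]
    push_cast
    field_simp
  · intro S T hST A D hA hD φ ψ hφ hψ hφ1 hψ1
    rw [hsum, hsum, hsum]
    have h1 := Cv_le l hgood S T hST A D hA hD φ ψ hφ hψ hφ1 hψ1
    unfold Cv at h1
    refine h1.trans ?_
    have hprod : ∀ A : Finset (Finset V), ∏ F ∈ A, pl l F ≤ (CB k / N) ^ A.card := by
      intro A
      have h2 : ∏ F ∈ A, pl l F ≤ ∏ _F ∈ A, (CB k / N) :=
        Finset.prod_le_prod (fun F _ => pl_nonneg l hgood F) (fun F _ => hpl F)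
      rwa [Finset.prod_const] at h2
    have hPhi : Phi l S T ≤ (CB k / N) * (S.card * T.card) := by
      unfold Phi
      have e1 : ∀ x ∈ S, ∑ y ∈ T, kap l x y ≤ T.card * (CB k / N) := by
        intro x hx
        have : ∑ y ∈ T, kap l x y ≤ ∑ _y ∈ T, (CB k / N) := by
          apply Finset.sum_le_sum
          intro y hy
          have hxy : x ≠ y := by
            rintro rfl
            exact Finset.disjoint_left.1 hST hx hy
          have := hkap x y hxy
          rwa [hCB] at this
        rwa [Finset.sum_const, nsmul_eq_mul] at this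
      have e2 := Finset.sum_le_sum e1
      rw [Finset.sum_const, nsmul_eq_mul] at e2
      linarith
    rw [pow_succ, pow_add]
    have pA := prod_pl_nonneg l hgood A
    have pD := prod_pl_nonneg l hgood D
    have pP := Phi_nonneg l hgood S T
    calc (∏ F ∈ A, pl l F) * (∏ F ∈ D, pl l F) * Phi l S T
        ≤ ((CB k / N) ^ A.card * (CB k / N) ^ D.card) * ((CB k / N) * (S.card * T.card)) :=
          mul_le_mul (mul_le_mul (hprod A) (hprod D) pD (by positivity)) hPhi pP (by positivity)
      _ = (CB k / N) ^ A.card * (CB k / N) ^ D.card * (CB k / N) * (S.card * T.card) := by ring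

end Pool.Agent.LawB
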